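import Mathlib

/-!
Dyadic cells and the counting of bad positions.
-/

open Set Filter Topology

namespace Pool.Agent.MP72b52d

/-- The dyadic cells of side `2 ^ (-b)` met by `E`. -/
def cells (E : Set ℝ) (b : ℕ) : Set ℤ := {n | ∃ x ∈ E, ⌊(2 : ℝ) ^ b * x⌋ = n}

/-- thickened set of cells -/
def Dset (E : Set ℝ) (b : ℕ) : Set ℤ := {j | j ∈ cells E b ∨ j - 1 ∈ cells E b}

/-- cells of translations compatible with all the positions in `Φ` -/
def Tset (E : Set ℝ) (b : ℕ) (Φ : Set ℤ) : Set ℤ := {n | ∀ j ∈ Φ, j - n ∈ Dset E b}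

/-- scale `b` is good for `E` -/
def Good (E : Set ℝ) (δ : ℝ) (b : ℕ) : Prop :=
  (cells E b).Finite ∧ ((cells E b).ncard : ℝ) ≤ (2 : ℝ) ^ ((1 - δ) * b)

/-- `Tset` is small -/
def TSmall (E : Set ℝ) (s : ℝ) (b : ℕ) (Φ : Set ℤ) : Prop :=
  (Tset E b Φ).Finite ∧ ((Tset E b Φ).ncard : ℝ) ≤ (2 : ℝ) ^ (s * b)

theorem Dset_eq (E : Set ℝ) (b : ℕ) : Dset E b = cells E b ∪ (fun x => x + 1) '' (cells E b) := by
  ext j
  simp only [Dset, mem_ofPred_eq, mem_union, mem_image]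
  constructor
  · rintro (h | h)
    · exact Or.inl h
    · exact Or.inr ⟨j - 1, h, by ring⟩
  · rintro (h | ⟨x, hx, rfl⟩)
    · exact Or.inl h
    · exact Or.inr (by simpa using hx)

theorem Dset_finite {E : Set ℝ} {b : ℕ} (h : (cells E b).Finite) : (Dset E b).Finite := by
  rw [Dset_eq]; exact h.union (h.image _)

theorem Dset_ncard {E : Set ℝ} {b : ℕ} (h : (cells E b).Finite) :
    (Dset E b).ncard ≤ 2 * (cells E b).ncard := by
  rw [Dset_eq]
  refine (Set.ncard_union_le _ _).trans ?_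
  have := Set.ncard_image_le (f := fun x : ℤ => x + 1) h
  omega

theorem Tset_insert (E : Set ℝ) (b : ℕ) (Φ : Set ℤ) (Y : ℤ) :
    Tset E b (insert Y Φ) = {n ∈ Tset E b Φ | Y - n ∈ Dset E b} := by
  ext n
  simp only [Tset, mem_ofPred_eq, mem_insert_iff, forall_eq_or_imp]
  tauto

theorem Tset_singleton (E : Set ℝ) (b : ℕ) (Y : ℤ) :
    Tset E b {Y} = (fun d => Y - d) '' (Dset E b) := by
  ext n
  simp only [Tset, mem_ofPred_eq, mem_singleton_iff, forall_eq, mem_image]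
  constructor
  · intro h; exact ⟨Y - n, h, by ring⟩
  · rintro ⟨d, hd, rfl⟩; simpa using hd

/-- positions making the intersection large -/
def Bad (E : Set ℝ) (s : ℝ) (b : ℕ) (Φ : Set ℤ) : Set ℤ := {Y | ¬ TSmall E s b (insert Y Φ)}

theorem Bad_bound {E : Set ℝ} {δ s : ℝ} {b : ℕ} {Φ : Set ℤ} (hg : Good E δ b)
    (hT : TSmall E s b Φ) :
    (Bad E (s - δ / 4) b Φ).Finite ∧
      ((Bad E (s - δ / 4) b Φ).ncard : ℝ) ≤ 2 * (2 : ℝ) ^ ((1 - 3 * δ / 4) * b) := by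
  classical
  obtain ⟨hTf, hTc⟩ := hT
  have hDf : (Dset E b).Finite := Dset_finite hg.1
  have hDc : ((Dset E b).ncard : ℝ) ≤ 2 * (2 : ℝ) ^ ((1 - δ) * b) := by
    have h1 := Dset_ncard hg.1
    have h2 : ((Dset E b).ncard : ℝ) ≤ 2 * ((cells E b).ncard : ℝ) := by exact_mod_cast h1
    linarith [hg.2]
  set T' := hTf.toFinset with hT'
  set D' := hDf.toFinset with hD'
  have hins : ∀ Y : ℤ, (Tset E b (insert Y Φ)) = (T'.filter (fun n => Y - n ∈ D') : Set ℤ) := by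
    intro Y
    rw [Tset_insert]
    ext n
    simp [hT', hD']
  have hinsf : ∀ Y : ℤ, (Tset E b (insert Y Φ)).Finite := by
    intro Y; rw [hins Y]; exact Finset.finite_toSet _
  have hinsc : ∀ Y : ℤ, (Tset E b (insert Y Φ)).ncard = (T'.filter (fun n => Y - n ∈ D')).card := by
    intro Y; rw [hins Y]; exact Set.ncard_coe_finset _
  have hθ : (0 : ℝ) < (2 : ℝ) ^ ((s - δ / 4) * b) := by positivity
  have hbad : ∀ Y ∈ Bad E (s - δ / 4) b Φ,
      (2 : ℝ) ^ ((s - δ / 4) * b) < ((T'.filter (fun n => Y - n ∈ D')).card : ℝ) := by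
    intro Y hY
    by_contra hcon
    apply hY
    refine ⟨hinsf Y, ?_⟩
    rw [hinsc Y]
    exact not_lt.mp hcon
  have hBf : (Bad E (s - δ / 4) b Φ).Finite := by
    apply Set.Finite.subset (Finset.finite_toSet (Finset.image₂ (fun n d => n + d) T' D'))
    intro Y hY
    have h1 := hbad Y hY
    have h2 : 0 < ((T'.filter (fun n => Y - n ∈ D')).card : ℝ) := hθ.trans h1
    have h3 : 0 < (T'.filter (fun n => Y - n ∈ D')).card := by exact_mod_cast h2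
    obtain ⟨n, hn⟩ := Finset.card_pos.mp h3
    rw [Finset.mem_filter] at hn
    simp only [Finset.coe_image₂, mem_image2, Finset.mem_coe]
    exact ⟨n, hn.1, Y - n, hn.2, by ring⟩
  refine ⟨hBf, ?_⟩
  set B' := hBf.toFinset with hB'
  have hBc : (Bad E (s - δ / 4) b Φ).ncard = B'.card := by
    rw [Set.ncard_eq_toFinset_card _ hBf]
  rw [hBc]
  have hdc : ∑ Y ∈ B', (T'.filter (fun n => Y - n ∈ D')).card =
      ∑ n ∈ T', (B'.filter (fun Y => Y - n ∈ D')).card := by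
    simp only [Finset.card_filter]
    exact Finset.sum_comm
  have h1 : ∑ n ∈ T', (B'.filter (fun Y => Y - n ∈ D')).card ≤ T'.card * D'.card := by
    rw [← smul_eq_mul]
    apply Finset.sum_le_card_nsmul
    intro n _
    apply Finset.card_le_card_of_injOn (fun Y => Y - n)
    · intro Y hY
      simp only [Finset.coe_filter, mem_ofPred_eq] at hY
      exact hY.2
    · intro Y _ Y' _ h
      simpa using h
  have h2 : (B'.card : ℝ) * (2 : ℝ) ^ ((s - δ / 4) * b) ≤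
      ((∑ Y ∈ B', (T'.filter (fun n => Y - n ∈ D')).card : ℕ) : ℝ) := by
    push_cast
    rw [← nsmul_eq_mul]
    apply Finset.card_nsmul_le_sum
    intro Y hY
    have : Y ∈ Bad E (s - δ / 4) b Φ := by simpa [hB'] using hY
    exact (hbad Y this).le
  have h3 : ((∑ Y ∈ B', (T'.filter (fun n => Y - n ∈ D')).card : ℕ) : ℝ) ≤
      (T'.card : ℝ) * D'.card := by
    rw [hdc]; exact_mod_cast h1
  have hTc' : (T'.card : ℝ) ≤ (2 : ℝ) ^ (s * b) := by
    rw [hT', ← Set.ncard_eq_toFinset_card _ hTf]; exact hTc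
  have hDc' : (D'.card : ℝ) ≤ 2 * (2 : ℝ) ^ ((1 - δ) * b) := by
    rw [hD', ← Set.ncard_eq_toFinset_card _ hDf]; exact hDc
  have h4 : (T'.card : ℝ) * D'.card ≤ (2 : ℝ) ^ (s * b) * (2 * (2 : ℝ) ^ ((1 - δ) * b)) :=
    mul_le_mul hTc' hDc' (by positivity) (by positivity)
  have h5 : (2 : ℝ) ^ (s * b) * (2 * (2 : ℝ) ^ ((1 - δ) * b)) =
      (2 * (2 : ℝ) ^ ((1 - 3 * δ / 4) * b)) * (2 : ℝ) ^ ((s - δ / 4) * b) := by
    have e1 : (2 : ℝ) ^ (s * b) * (2 : ℝ) ^ ((1 - δ) * b) =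
        (2 : ℝ) ^ ((1 - 3 * δ / 4) * b) * (2 : ℝ) ^ ((s - δ / 4) * b) := by
      rw [← Real.rpow_add (by norm_num), ← Real.rpow_add (by norm_num)]
      congr 1; ring
    calc (2 : ℝ) ^ (s * b) * (2 * (2 : ℝ) ^ ((1 - δ) * b))
        = 2 * ((2 : ℝ) ^ (s * b) * (2 : ℝ) ^ ((1 - δ) * b)) := by ring
      _ = 2 * ((2 : ℝ) ^ ((1 - 3 * δ / 4) * b) * (2 : ℝ) ^ ((s - δ / 4) * b)) := by rw [e1]
      _ = _ := by ring
  have h6 : (B'.card : ℝ) * (2 : ℝ) ^ ((s - δ / 4) * b) ≤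
      (2 * (2 : ℝ) ^ ((1 - 3 * δ / 4) * b)) * (2 : ℝ) ^ ((s - δ / 4) * b) := by
    rw [← h5]; exact (h2.trans h3).trans h4
  exact le_of_mul_le_mul_right h6 hθ

/-- the natural numbers `Y` such that `Y` or `Y + 1` is bad -/
def BadN (E : Set ℝ) (s : ℝ) (b : ℕ) (Φ : Set ℤ) : Set ℕ :=
  {Y | (Y : ℤ) ∈ Bad E s b Φ ∨ (Y : ℤ) + 1 ∈ Bad E s b Φ}

theorem BadN_bound {E : Set ℝ} {δ s : ℝ} {b : ℕ} {Φ : Set ℤ} (hg : Good E δ b)
    (hT : TSmall E s b Φ) :
    (BadN E (s - δ / 4) b Φ).Finite ∧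
      ((BadN E (s - δ / 4) b Φ).ncard : ℝ) ≤ 4 * (2 : ℝ) ^ ((1 - 3 * δ / 4) * b) := by
  obtain ⟨h1, h2⟩ := Bad_bound hg hT
  set A := Bad E (s - δ / 4) b Φ with hA
  have e1 : BadN E (s - δ / 4) b Φ = (fun n : ℕ => (n : ℤ)) ⁻¹' A ∪
      (fun n : ℕ => (n : ℤ) + 1) ⁻¹' A := rfl
  have i1 : Function.Injective (fun n : ℕ => (n : ℤ)) := Nat.cast_injective
  have i2 : Function.Injective (fun n : ℕ => (n : ℤ) + 1) := by
    intro a b h; simpa using h
  have f1 : ((fun n : ℕ => (n : ℤ)) ⁻¹' A).Finite := h1.preimage i1.injOn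
  have f2 : ((fun n : ℕ => (n : ℤ) + 1) ⁻¹' A).Finite := h1.preimage i2.injOn
  have c1 : ((fun n : ℕ => (n : ℤ)) ⁻¹' A).ncard ≤ A.ncard :=
    Set.ncard_le_ncard_of_injOn _ (fun a ha => ha) i1.injOn h1
  have c2 : ((fun n : ℕ => (n : ℤ) + 1) ⁻¹' A).ncard ≤ A.ncard :=
    Set.ncard_le_ncard_of_injOn _ (fun a ha => ha) i2.injOn h1
  refine ⟨by rw [e1]; exact f1.union f2, ?_⟩
  have c3 : (BadN E (s - δ / 4) b Φ).ncard ≤ A.ncard + A.ncard := by
    rw [e1]; exact (Set.ncard_union_le _ _).trans (by omega)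
  have c4 : ((BadN E (s - δ / 4) b Φ).ncard : ℝ) ≤ (A.ncard : ℝ) + A.ncard := by exact_mod_cast c3
  linarith

/-- floor positions of a set of reals -/
def pos (b : ℕ) (F : Set ℝ) : Set ℤ := (fun x : ℝ => ⌊(2 : ℝ) ^ b * x⌋) '' F

theorem pos_insert (b : ℕ) (F : Set ℝ) (x : ℝ) :
    pos b (insert x F) = insert ⌊(2 : ℝ) ^ b * x⌋ (pos b F) := by
  unfold pos; rw [Set.image_insert_eq]

/-- the smallness property of a finite set of points -/
def Small (E : Set ℝ) (δ : ℝ) (k : ℕ) (F : Set ℝ) : Prop :=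
  ∃ᶠ b : ℕ in atTop, Good E δ b ∧ TSmall E (1 - (k + 1) * δ / 4) b (pos b F)

theorem mem_Tset_of_translate {E : Set ℝ} {b : ℕ} {F : Set ℝ} {t : ℝ} (h : ∀ x ∈ F, x - t ∈ E) :
    ⌊(2 : ℝ) ^ b * t⌋ ∈ Tset E b (pos b F) := by
  rintro j ⟨x, hx, rfl⟩
  have hxt := h x hx
  have hmem : ⌊(2 : ℝ) ^ b * (x - t)⌋ ∈ cells E b := ⟨x - t, hxt, rfl⟩
  have e1 : (2 : ℝ) ^ b * (x - t) = (2 : ℝ) ^ b * x - (2 : ℝ) ^ b * t := by ring
  rw [e1] at hmem
  set u := (2 : ℝ) ^ b * x with hu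
  set v := (2 : ℝ) ^ b * t with hv
  have h1 := Int.floor_le u
  have h2 := Int.lt_floor_add_one u
  have h3 := Int.floor_le v
  have h4 := Int.lt_floor_add_one v
  have h5 : ⌊u - v⌋ = ⌊u⌋ - ⌊v⌋ ∨ ⌊u - v⌋ = ⌊u⌋ - ⌊v⌋ - 1 := by
    rcases le_or_gt ((⌊u⌋ : ℝ) - ⌊v⌋) (u - v) with h | h
    · left
      rw [Int.floor_eq_iff]
      push_cast
      constructor <;> linarith
    · right
      rw [Int.floor_eq_iff]
      push_cast
      constructor <;> linarith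
  simp only [Dset, mem_ofPred_eq]
  rcases h5 with h5 | h5
  · left; rw [← h5]; exact hmem
  · right; rw [← h5]; exact hmem

/-- a single point is always small -/
theorem small_one {E : Set ℝ} {δ : ℝ} (hδ : 0 < δ) (hE : ∃ᶠ b : ℕ in atTop, Good E δ b) (x : ℝ) :
    Small E δ 1 {x} := by
  have h1 : ∀ᶠ b : ℕ in atTop, 2 / δ ≤ (b : ℝ) :=
    tendsto_natCast_atTop_atTop.eventually_ge_atTop (2 / δ)
  refine (hE.and_eventually h1).mono ?_
  rintro b ⟨hg, hb⟩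
  refine ⟨hg, ?_⟩
  have hp : pos b {x} = {⌊(2 : ℝ) ^ b * x⌋} := by simp [pos]
  rw [hp]
  have hDf : (Dset E b).Finite := Dset_finite hg.1
  constructor
  · rw [Tset_singleton]; exact hDf.image _
  · rw [Tset_singleton]
    have h2 : ((fun d => ⌊(2 : ℝ) ^ b * x⌋ - d) '' (Dset E b)).ncard ≤ (Dset E b).ncard :=
      Set.ncard_image_le hDf
    have h3 := Dset_ncard hg.1
    have h4 : (((fun d => ⌊(2 : ℝ) ^ b * x⌋ - d) '' (Dset E b)).ncard : ℝ) ≤
        2 * (cells E b).ncard := by exact_mod_cast h2.trans h3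
    have h5 : 2 * ((cells E b).ncard : ℝ) ≤ 2 * (2 : ℝ) ^ ((1 - δ) * b) := by linarith [hg.2]
    refine (h4.trans h5).trans ?_
    have h6 : (2 : ℝ) * (2 : ℝ) ^ ((1 - δ) * b) = (2 : ℝ) ^ (1 + (1 - δ) * b) := by
      rw [Real.rpow_add (by norm_num), Real.rpow_one]
    rw [h6]
    apply Real.rpow_le_rpow_of_exponent_le (by norm_num)
    have h7 : 2 ≤ δ * b := by rw [div_le_iff₀ hδ] at hb; linarith
    push_cast
    nlinarith

/-- enough points in the same translate contradict smallness -/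
theorem small_large {E : Set ℝ} {δ : ℝ} {k : ℕ} (hk : 4 < (k + 1) * δ) {F : Set ℝ}
    (hF : Small E δ k F) (t : ℝ) : ¬ (∀ x ∈ F, x - t ∈ E) := by
  intro h
  have h1 : ∀ᶠ b : ℕ in atTop, 1 ≤ b := eventually_ge_atTop 1
  obtain ⟨b, ⟨hg, hf, hc⟩, hb⟩ := (hF.and_eventually h1).exists
  have h2 : ((Tset E b (pos b F)).ncard : ℝ) < 1 := by
    refine lt_of_le_of_lt hc ?_
    apply Real.rpow_lt_one_of_one_lt_of_neg (by norm_num)
    have hb' : (1 : ℝ) ≤ b := by exact_mod_cast hb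
    have : 1 - (k + 1) * δ / 4 < 0 := by linarith
    exact mul_neg_of_neg_of_pos this (by linarith)
  have h3 : (Tset E b (pos b F)).ncard < 1 := by exact_mod_cast h2
  have h4 : Tset E b (pos b F) = ∅ := by
    rw [← Set.ncard_eq_zero hf]; omega
  have h5 := mem_Tset_of_translate (b := b) h
  rw [h4] at h5
  exact h5

end Pool.Agent.MP72b52d
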