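import Mathlib

/-!
Product probability estimate used for the random perfect set.
-/

open MeasureTheory ProbabilityTheory Set
open scoped ENNReal

namespace Pool.Agent.MP72b52d

/-- Uniform probability on `Fin (2 ^ L)`. -/
noncomputable def unif (L : ℕ) : Measure (Fin (2 ^ L)) :=
  (PMF.uniformOfFintype (Fin (2 ^ L))).toMeasure

instance (L : ℕ) : IsProbabilityMeasure (unif L) := by
  unfold unif; infer_instance

/-- The product probability on `∀ q : ℕ × ℕ, Fin (2 ^ (L q.1))`. -/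
noncomputable def prodm (L : ℕ → ℕ) : Measure (∀ q : ℕ × ℕ, Fin (2 ^ (L q.1))) :=
  Measure.infinitePi (fun q : ℕ × ℕ => unif (L q.1))

instance (L : ℕ → ℕ) : IsProbabilityMeasure (prodm L) := by
  unfold prodm; infer_instance

theorem unif_apply (L : ℕ) (s : Set (Fin (2 ^ L))) (N : ℕ) (hN : s.ncard ≤ N) :
    unif L s ≤ (N : ℝ≥0∞) / (2 : ℝ≥0∞) ^ L := by
  classical
  have hs : MeasurableSet s := trivial
  unfold unif
  rw [PMF.toMeasure_uniformOfFintype_apply _ hs]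
  rw [Fintype.card_fin]
  have h2 : ((2 ^ L : ℕ) : ℝ≥0∞) = (2 : ℝ≥0∞) ^ L := by push_cast; rfl
  rw [h2]
  apply ENNReal.div_le_div_right
  have : Fintype.card s = s.ncard := by
    rw [← Nat.card_eq_fintype_card]; rfl
  rw [this]
  exact_mod_cast hN

theorem ncard_div_eq (L e β : ℕ) : {w : Fin (2 ^ L) | (w : ℕ) / 2 ^ e = β}.ncard ≤ 2 ^ e := by
  classical
  have h1 : Set.InjOn (fun w : Fin (2 ^ L) => (w : ℕ) % 2 ^ e)
      {w : Fin (2 ^ L) | (w : ℕ) / 2 ^ e = β} := by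
    intro w hw w' hw' h
    have hw1 : (w : ℕ) / 2 ^ e = β := hw
    have hw2 : (w' : ℕ) / 2 ^ e = β := hw'
    have h' : (w : ℕ) % 2 ^ e = (w' : ℕ) % 2 ^ e := h
    apply Fin.ext
    rw [← Nat.div_add_mod (w : ℕ) (2 ^ e), ← Nat.div_add_mod (w' : ℕ) (2 ^ e), hw1, hw2, h']
  have h2 := Set.ncard_le_ncard_of_injOn (s := {w : Fin (2 ^ L) | (w : ℕ) / 2 ^ e = β})
    (t := (Finset.range (2 ^ e) : Set ℕ)) (fun w : Fin (2 ^ L) => (w : ℕ) % 2 ^ e)
    (fun w _ => by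
      simp only [Finset.coe_range, mem_Iio]
      exact Nat.mod_lt _ (by positivity)) h1 (Finset.finite_toSet _)
  rwa [Set.ncard_coe_finset, Finset.card_range] at h2

theorem ncard_eq (L β : ℕ) : {w : Fin (2 ^ L) | (w : ℕ) = β}.ncard ≤ 1 := by
  have := ncard_div_eq L 0 β
  simpa using this

/-- The basic estimate: prescribed blocks at `2 M` different coordinates. -/
theorem prob_blocks (L : ℕ → ℕ) (i e M : ℕ) (c c' : Fin M → ℕ) (hc : Function.Injective c)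
    (hc' : Function.Injective c') (α β : Fin M → ℕ) (he : e ≤ L (i + 1)) :
    prodm L {ω | ∀ j : Fin M, ((ω (i, c j) : Fin _) : ℕ) = α j ∧
      ((ω (i + 1, c' j) : Fin _) : ℕ) / 2 ^ e = β j} ≤
      (((2 : ℝ≥0∞) ^ (L i + (L (i + 1) - e)))⁻¹) ^ M := by
  classical
  let g : Fin M × Bool → ℕ × ℕ := fun q => if q.2 then (i + 1, c' q.1) else (i, c q.1)
  have hg : Function.Injective g := by
    rintro ⟨j, b⟩ ⟨j', b'⟩ h
    cases b <;> cases b' <;> simp [g] at h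
    · exact Prod.ext (hc h) rfl
    · exact Prod.ext (hc' h) rfl
  have hind0 : iIndepFun (fun (q : ℕ × ℕ) (ω : ∀ q : ℕ × ℕ, Fin (2 ^ (L q.1))) => ω q)
      (prodm L) := by
    unfold prodm
    exact iIndepFun_infinitePi (P := fun q : ℕ × ℕ => unif (L q.1)) (X := fun _ w => w)
      (fun _ => measurable_id)
  have hind := hind0.precomp hg
  let S : ∀ q : Fin M × Bool, Set (Fin (2 ^ (L (g q).1))) := fun q =>
    if q.2 then {w | (w : ℕ) / 2 ^ e = β q.1} else {w | (w : ℕ) = α q.1}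
  have key := hind.measure_inter_preimage_eq_mul (S := Finset.univ) (sets := S)
    (fun _ _ => trivial)
  have hset : {ω : ∀ q : ℕ × ℕ, Fin (2 ^ (L q.1)) | ∀ j : Fin M, ((ω (i, c j) : Fin _) : ℕ) = α j ∧
      ((ω (i + 1, c' j) : Fin _) : ℕ) / 2 ^ e = β j} ⊆
      (⋂ q ∈ (Finset.univ : Finset (Fin M × Bool)), (fun ω : ∀ q : ℕ × ℕ, Fin (2 ^ (L q.1)) =>
        ω (g q)) ⁻¹' (S q)) := by
    intro ω hω
    simp only [Finset.mem_univ, iInter_true, mem_iInter]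
    rintro ⟨j, b⟩
    cases b
    · exact (hω j).1
    · exact (hω j).2
  refine (measure_mono hset).trans ?_
  have key' : (prodm L) (⋂ q ∈ (Finset.univ : Finset (Fin M × Bool)),
      (fun ω : ∀ q : ℕ × ℕ, Fin (2 ^ (L q.1)) => ω (g q)) ⁻¹' (S q)) =
      ∏ q : Fin M × Bool, (prodm L) ((fun ω : ∀ q : ℕ × ℕ, Fin (2 ^ (L q.1)) => ω (g q)) ⁻¹' (S q)) :=
    key
  rw [key']
  have hmar : ∀ q : Fin M × Bool,
      (prodm L) ((fun ω : ∀ q : ℕ × ℕ, Fin (2 ^ (L q.1)) => ω (g q)) ⁻¹' (S q)) =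
      unif (L (g q).1) (S q) := by
    intro q
    have hmp : MeasurePreserving (fun ω : ∀ q : ℕ × ℕ, Fin (2 ^ (L q.1)) => ω (g q))
        (prodm L) (unif (L (g q).1)) := by
      unfold prodm
      exact measurePreserving_eval_infinitePi (fun q : ℕ × ℕ => unif (L q.1)) (g q)
    exact hmp.measure_preimage (MeasurableSet.nullMeasurableSet trivial)
  rw [Finset.prod_congr rfl (fun q _ => hmar q)]
  rw [Fintype.prod_prod_type]
  have hj : ∀ j : Fin M, (∏ b : Bool, unif (L (g (j, b)).1) (S (j, b))) ≤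
      ((2 : ℝ≥0∞) ^ (L i + (L (i + 1) - e)))⁻¹ := by
    intro j
    rw [Fintype.prod_bool]
    have e1 : unif (L (g (j, true)).1) (S (j, true)) ≤ ((2 ^ e : ℕ) : ℝ≥0∞) / 2 ^ (L (i + 1)) :=
      unif_apply (L (i + 1)) {w | (w : ℕ) / 2 ^ e = β j} (2 ^ e) (ncard_div_eq _ _ _)
    have e2 : unif (L (g (j, false)).1) (S (j, false)) ≤ ((1 : ℕ) : ℝ≥0∞) / 2 ^ (L i) :=
      unif_apply (L i) {w | (w : ℕ) = α j} 1 (ncard_eq _ _)
    refine (mul_le_mul' e1 e2).trans ?_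
    have h3 : ((2 ^ e : ℕ) : ℝ≥0∞) / 2 ^ (L (i + 1)) = ((2 : ℝ≥0∞) ^ (L (i + 1) - e))⁻¹ := by
      have : (2 : ℝ≥0∞) ^ (L (i + 1)) = 2 ^ e * 2 ^ (L (i + 1) - e) := by
        rw [← pow_add]; congr 1; omega
      rw [this]
      push_cast
      rw [ENNReal.div_eq_inv_mul, ENNReal.mul_inv (Or.inl (by simp)) (Or.inl (by simp))]
      rw [mul_comm, ← mul_assoc, ENNReal.mul_inv_cancel (by simp) (by simp), one_mul]
    rw [h3]
    rw [pow_add, ENNReal.mul_inv (Or.inl (by simp)) (Or.inl (by simp))]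
    simp only [Nat.cast_one, one_div]
    rw [mul_comm]
  calc ∏ j : Fin M, ∏ b : Bool, unif (L (g (j, b)).1) (S (j, b))
      ≤ ∏ _j : Fin M, ((2 : ℝ≥0∞) ^ (L i + (L (i + 1) - e)))⁻¹ :=
        Finset.prod_le_prod' (fun j _ => hj j)
    _ = _ := by simp

end Pool.Agent.MP72b52d
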