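import Mathlib
import Pool.Agent.Lib.MP_72b52d_lc.Prob

/-!
The random tree of points.
-/

open Set Filter Topology

namespace Pool.Agent.MP72b52d

/-- Heap code of the initial segment of length `j` of `f`. -/
def code (f : ℕ → Bool) : ℕ → ℕ
  | 0 => 0
  | j + 1 => 2 * code f j + 1 + (f j).toNat

theorem code_inj (f f' : ℕ → Bool) : ∀ j j' : ℕ, code f j = code f' j' →
    j = j' ∧ ∀ p < j, f p = f' p := by
  intro j
  induction j with
  | zero =>
    intro j' h
    cases j' with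
    | zero => exact ⟨rfl, fun p hp => absurd hp (by omega)⟩
    | succ j' => simp only [code] at h; omega
  | succ j ih =>
    intro j' h
    cases j' with
    | zero => simp only [code] at h; omega
    | succ j' =>
      simp only [code] at h
      have h1 : (f j).toNat < 2 := by cases f j <;> simp
      have h2 : (f' j').toNat < 2 := by cases f' j' <;> simp
      have h3 : code f j = code f' j' := by omega
      have h4 : (f j).toNat = (f' j').toNat := by omega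
      obtain ⟨h5, h6⟩ := ih j' h3
      subst h5
      refine ⟨rfl, fun p hp => ?_⟩
      rcases Nat.lt_succ_iff_lt_or_eq.mp hp with hp | hp
      · exact h6 p hp
      · subst hp
        cases h7 : f p <;> cases h8 : f' p <;> simp [h7, h8] at h4 ⊢

theorem code_congr (f f' : ℕ → Bool) : ∀ j : ℕ, (∀ p < j, f p = f' p) → code f j = code f' j := by
  intro j
  induction j with
  | zero => intro _; rfl
  | succ j ih =>
    intro h
    simp only [code]
    rw [ih (fun p hp => h p (by omega)), h j (by omega)]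

theorem code_lt_succ (f : ℕ → Bool) (j : ℕ) : code f j < code f (j + 1) := by
  simp only [code]; omega

theorem code_strictMono (f : ℕ → Bool) : StrictMono (code f) :=
  strictMono_nat_of_lt_succ (code_lt_succ f)

theorem le_code (f : ℕ → Bool) (j : ℕ) : j ≤ code f j := (code_strictMono f).le_apply

/-- The zone `i` is forced for `f`. -/
def Forced (i : ℕ) (f : ℕ → Bool) : Prop := i % 3 = 0 ∧ ∃ j ≤ i, code f j = i / 3

theorem forced_congr {i : ℕ} {f f' : ℕ → Bool} (h : ∀ p < i, f p = f' p) :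
    Forced i f ↔ Forced i f' := by
  unfold Forced
  refine and_congr Iff.rfl ⟨?_, ?_⟩
  · rintro ⟨j, hj, h1⟩
    exact ⟨j, hj, by rw [← h1]; exact code_congr _ _ _ (fun p hp => (h p (by omega)).symm)⟩
  · rintro ⟨j, hj, h1⟩
    exact ⟨j, hj, by rw [← h1]; exact code_congr _ _ _ (fun p hp => (h p (by omega)))⟩

theorem forced_code (f : ℕ → Bool) (j : ℕ) : Forced (3 * code f j) f := by
  refine ⟨by omega, j, ?_, by omega⟩
  have := le_code f j
  omega

theorem forced_common {f f' : ℕ → Bool} {d i : ℕ} (hd : f d ≠ f' d) (h : Forced i f)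
    (h' : Forced i f') : i ≤ 3 * code f d := by
  obtain ⟨h0, j, hj, h1⟩ := h
  obtain ⟨_, j', hj', h1'⟩ := h'
  obtain ⟨h2, h3⟩ := code_inj f f' j j' (h1.trans h1'.symm)
  have h4 : j ≤ d := by
    by_contra hcon
    exact hd (h3 d (by omega))
  have h5 : code f j ≤ code f d := (code_strictMono f).monotone h4
  omega

/-- zone `i` and the zone before it are not forced -/
def FreeZone (i : ℕ) (f : ℕ → Bool) : Prop := ¬ Forced i f ∧ ¬ Forced (i - 1) f

theorem free_or {f f' : ℕ → Bool} {d i : ℕ} (hd : f d ≠ f' d) (hi : 3 * code f d + 1 < i) :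
    FreeZone i f ∨ FreeZone i f' := by
  by_contra hcon
  unfold FreeZone at hcon
  have h1 : Forced i f ∨ Forced (i - 1) f := by tauto
  have h2 : Forced i f' ∨ Forced (i - 1) f' := by tauto
  rcases h1 with h1 | h1 <;> rcases h2 with h2 | h2
  · have := forced_common hd h1 h2; omega
  · have e1 := h1.1; have e2 := h2.1; omega
  · have e1 := h1.1; have e2 := h2.1; omega
  · have := forced_common hd h1 h2; omega

/-- Data for the construction of the tree of points. -/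
structure Scheme where
  a : ℕ → ℕ
  g : ℕ → ℕ → ℕ
  U : ℕ → Set ℝ
  a0 : a 0 = 0
  amono : ∀ i, a i < a (i + 1)
  gdiv : ∀ i Y, Y < 2 ^ (a i) → g i Y / 2 ^ (a (i + 1) - a i) = Y
  gU : ∀ i Y, Y < 2 ^ (a i) →
    Icc ((g i Y : ℝ) / 2 ^ (a (i + 1))) ((g i Y + 1 : ℝ) / 2 ^ (a (i + 1))) ⊆ U i
  Uanti : Antitone U
  grow : ∀ i, i * a i ≤ a (i + 1)
  big : ∀ i, 2 ^ (i + 2) ≤ a (i + 1)

namespace Scheme

variable (S : Scheme)

/-- zone lengths -/
def L (i : ℕ) : ℕ := S.a (i + 1) - S.a i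

/-- sample space -/
abbrev Om : Type := ∀ q : ℕ × ℕ, Fin (2 ^ (S.L q.1))

open Classical in
/-- binary prefix of length `a i` of the point with parameter `f`. -/
noncomputable def P (ω : S.Om) (f : ℕ → Bool) : ℕ → ℕ
  | 0 => 0
  | i + 1 => if Forced i f then S.g i (P ω f i) else
      P ω f i * 2 ^ (S.L i) + (ω (i, code f (i + 1)) : ℕ)

theorem a_add_L (i : ℕ) : S.a i + S.L i = S.a (i + 1) := by
  have := S.amono i
  unfold L; omega

theorem a_strictMono : StrictMono S.a := strictMono_nat_of_lt_succ S.amono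

theorem P_lt (ω : S.Om) (f : ℕ → Bool) : ∀ i, S.P ω f i < 2 ^ (S.a i) ∧
    (S.P ω f (i + 1)) / 2 ^ (S.L i) = S.P ω f i := by
  have key : ∀ i, S.P ω f i < 2 ^ (S.a i) → (S.P ω f (i + 1)) / 2 ^ (S.L i) = S.P ω f i := by
    intro i hi
    simp only [P]
    split_ifs with h
    · exact S.gdiv i _ hi
    · rw [mul_comm, Nat.mul_add_div (by positivity), Nat.div_eq_of_lt (ω (i, code f (i + 1))).2,
        add_zero]
  intro i
  induction i with
  | zero =>
    have h0 : S.P ω f 0 < 2 ^ (S.a 0) := by simp [P]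
    exact ⟨h0, key 0 h0⟩
  | succ i ih =>
    have h1 : S.P ω f (i + 1) < 2 ^ (S.a (i + 1)) := by
      have h2 := ih.2
      have h3 := ih.1
      rw [← S.a_add_L i, pow_add]
      have h4 : 0 < 2 ^ (S.L i) := by positivity
      rw [← Nat.div_lt_iff_lt_mul h4, h2]
      exact h3
    exact ⟨h1, key _ h1⟩

theorem P_congr (ω : S.Om) (f f' : ℕ → Bool) : ∀ i, (∀ p < i, f p = f' p) →
    S.P ω f i = S.P ω f' i := by
  intro i
  induction i with
  | zero => intro _; rfl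
  | succ i ih =>
    intro h
    have h1 := ih (fun p hp => h p (by omega))
    have h2 : Forced i f ↔ Forced i f' := forced_congr (fun p hp => h p (by omega))
    have h3 : code f (i + 1) = code f' (i + 1) := code_congr _ _ _ h
    simp only [P]
    rw [h1, h3]
    by_cases hF : Forced i f
    · rw [if_pos hF, if_pos (h2.mp hF)]
    · rw [if_neg hF, if_neg (fun h => hF (h2.mpr h))]

/-- lower dyadic approximation -/
noncomputable def lo (ω : S.Om) (f : ℕ → Bool) (i : ℕ) : ℝ := (S.P ω f i : ℝ) / 2 ^ (S.a i)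

/-- upper dyadic approximation -/
noncomputable def hi (ω : S.Om) (f : ℕ → Bool) (i : ℕ) : ℝ := (S.P ω f i + 1 : ℝ) / 2 ^ (S.a i)

theorem lo_le_succ (ω : S.Om) (f : ℕ → Bool) (i : ℕ) : S.lo ω f i ≤ S.lo ω f (i + 1) := by
  unfold lo
  have h2 := (S.P_lt ω f i).2
  have h3 : S.P ω f i * 2 ^ (S.L i) ≤ S.P ω f (i + 1) := by
    rw [← h2]; exact Nat.div_mul_le_self _ _
  have h4 : (S.P ω f i : ℝ) * 2 ^ (S.L i) ≤ S.P ω f (i + 1) := by exact_mod_cast h3
  rw [← S.a_add_L i, pow_add]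
  rw [div_le_div_iff₀ (by positivity) (by positivity)]
  have h5 : (0 : ℝ) < 2 ^ (S.a i) := by positivity
  nlinarith

theorem hi_succ_le (ω : S.Om) (f : ℕ → Bool) (i : ℕ) : S.hi ω f (i + 1) ≤ S.hi ω f i := by
  unfold hi
  have h2 := (S.P_lt ω f i).2
  have h3 : S.P ω f (i + 1) + 1 ≤ (S.P ω f i + 1) * 2 ^ (S.L i) := by
    rw [← h2]
    have h0 : 0 < 2 ^ (S.L i) := by positivity
    have h1 := Nat.div_add_mod (S.P ω f (i + 1)) (2 ^ (S.L i))
    have h2 := Nat.mod_lt (S.P ω f (i + 1)) h0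
    rw [add_mul, one_mul, mul_comm]
    omega
  have h4 : (S.P ω f (i + 1) : ℝ) + 1 ≤ (S.P ω f i + 1) * 2 ^ (S.L i) := by exact_mod_cast h3
  rw [← S.a_add_L i, pow_add]
  rw [div_le_div_iff₀ (by positivity) (by positivity)]
  have h5 : (0 : ℝ) < 2 ^ (S.a i) := by positivity
  nlinarith

theorem lo_mono (ω : S.Om) (f : ℕ → Bool) : Monotone (S.lo ω f) :=
  monotone_nat_of_le_succ (S.lo_le_succ ω f)

theorem hi_anti (ω : S.Om) (f : ℕ → Bool) : Antitone (S.hi ω f) :=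
  antitone_nat_of_succ_le (S.hi_succ_le ω f)

theorem lo_lt_hi (ω : S.Om) (f : ℕ → Bool) (i : ℕ) : S.lo ω f i < S.hi ω f i := by
  unfold lo hi
  apply div_lt_div_of_pos_right _ (by positivity)
  linarith

theorem lo_lt_hi' (ω : S.Om) (f : ℕ → Bool) (i j : ℕ) : S.lo ω f i ≤ S.hi ω f j := by
  rcases le_total i j with h | h
  · exact ((S.lo_mono ω f h).trans (S.lo_lt_hi ω f j).le)
  · exact (S.lo_lt_hi ω f i).le.trans (S.hi_anti ω f h)

/-- the point with parameter `f` -/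
noncomputable def pt (ω : S.Om) (f : ℕ → Bool) : ℝ := ⨆ i, S.lo ω f i

theorem lo_le_pt (ω : S.Om) (f : ℕ → Bool) (i : ℕ) : S.lo ω f i ≤ S.pt ω f :=
  le_ciSup (f := S.lo ω f) ⟨S.hi ω f 0, by rintro _ ⟨j, rfl⟩; exact S.lo_lt_hi' ω f j 0⟩ i

theorem pt_le_hi (ω : S.Om) (f : ℕ → Bool) (i : ℕ) : S.pt ω f ≤ S.hi ω f i :=
  ciSup_le (fun j => S.lo_lt_hi' ω f j i)

theorem pt_mem_Icc (ω : S.Om) (f : ℕ → Bool) : S.pt ω f ∈ Icc (0 : ℝ) 1 := by
  have h1 := S.lo_le_pt ω f 0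
  have h2 := S.pt_le_hi ω f 0
  simp only [lo, hi, P, S.a0] at h1 h2
  constructor
  · simpa using h1
  · simpa using h2

theorem pt_mem_U (ω : S.Om) (f : ℕ → Bool) (i : ℕ) : S.pt ω f ∈ S.U i := by
  obtain ⟨n, hn⟩ : ∃ n, n = 3 * code f i := ⟨_, rfl⟩
  have hF : Forced n f := hn ▸ forced_code f i
  have hin : i ≤ n := by have := le_code f i; omega
  apply S.Uanti hin
  have h1 := S.lo_le_pt ω f (n + 1)
  have h2 := S.pt_le_hi ω f (n + 1)
  have h3 := S.gU n (S.P ω f n) (S.P_lt ω f n).1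
  have h4 : S.P ω f (n + 1) = S.g n (S.P ω f n) := by
    simp only [P]
    rw [if_pos hF]
  apply h3
  constructor
  · rw [← h4]; exact h1
  · rw [← h4]; exact h2

/-- prefix of length `b` where `a i ≤ b ≤ a (i+1)` -/
noncomputable def Y (ω : S.Om) (f : ℕ → Bool) (i b : ℕ) : ℕ := S.P ω f (i + 1) / 2 ^ (S.a (i + 1) - b)

theorem Y_floor (ω : S.Om) (f : ℕ → Bool) (i b : ℕ) (hb : b ≤ S.a (i + 1)) :
    ⌊(2 : ℝ) ^ b * S.pt ω f⌋ = (S.Y ω f i b : ℤ) ∨ ⌊(2 : ℝ) ^ b * S.pt ω f⌋ = (S.Y ω f i b : ℤ) + 1 := by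
  have h1 := S.lo_le_pt ω f (i + 1)
  have h2 := S.pt_le_hi ω f (i + 1)
  set p := S.pt ω f with hp
  set N := S.P ω f (i + 1) with hN
  set c := S.a (i + 1) - b with hc
  have hca : S.a (i + 1) = b + c := by omega
  have hY : S.Y ω f i b = N / 2 ^ c := rfl
  rw [hY]
  have h3 : (N / 2 ^ c) * 2 ^ c ≤ N := Nat.div_mul_le_self _ _
  have h4 : N + 1 ≤ (N / 2 ^ c + 1) * 2 ^ c := by
    have h0 : 0 < 2 ^ c := by positivity
    have h1 := Nat.div_add_mod N (2 ^ c)
    have h2 := Nat.mod_lt N h0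
    rw [add_mul, one_mul, mul_comm]
    omega
  have h3' : ((N / 2 ^ c : ℕ) : ℝ) * 2 ^ c ≤ N := by exact_mod_cast h3
  have h4' : (N : ℝ) + 1 ≤ ((N / 2 ^ c : ℕ) + 1 : ℝ) * 2 ^ c := by exact_mod_cast h4
  have hc0 : (0 : ℝ) < 2 ^ c := by positivity
  have hb0 : (0 : ℝ) < 2 ^ b := by positivity
  have h5 : ((N / 2 ^ c : ℕ) : ℝ) ≤ 2 ^ b * p := by
    have h6 : (N : ℝ) / 2 ^ (b + c) ≤ p := by rw [← hca]; exact h1
    rw [div_le_iff₀ (by positivity), pow_add] at h6
    have : ((N / 2 ^ c : ℕ) : ℝ) * 2 ^ c ≤ (2 ^ b * p) * 2 ^ c := by nlinarith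
    exact le_of_mul_le_mul_right this hc0
  have h7 : 2 ^ b * p ≤ ((N / 2 ^ c : ℕ) : ℝ) + 1 := by
    have h6 : p ≤ (N + 1 : ℝ) / 2 ^ (b + c) := by rw [← hca]; exact h2
    rw [le_div_iff₀ (by positivity), pow_add] at h6
    have : (2 ^ b * p) * 2 ^ c ≤ (((N / 2 ^ c : ℕ) : ℝ) + 1) * 2 ^ c := by nlinarith
    exact le_of_mul_le_mul_right this hc0
  rcases lt_or_eq_of_le h7 with h8 | h8
  · left
    rw [Int.floor_eq_iff]
    exact ⟨by exact_mod_cast h5, by exact_mod_cast h8⟩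
  · right
    rw [h8]
    have : (((N / 2 ^ c : ℕ) : ℝ) + 1) = (((N / 2 ^ c : ℕ) : ℤ) + 1 : ℤ) := by
      rw [Int.cast_add, Int.cast_natCast, Int.cast_one]
    rw [this, Int.floor_intCast]

theorem Y_congr (ω : S.Om) (f f' : ℕ → Bool) (i b : ℕ) (h : ∀ p < i + 1, f p = f' p) :
    S.Y ω f i b = S.Y ω f' i b := by
  unfold Y
  rw [S.P_congr ω f f' (i + 1) h]

/-- In two consecutive free zones the prefix determines the blocks. -/
theorem Y_blocks (ω : S.Om) (f : ℕ → Bool) (i b : ℕ) (hb : S.a (i + 1) ≤ b)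
    (hb' : b ≤ S.a (i + 2)) (h1 : ¬ Forced i f) (h2 : ¬ Forced (i + 1) f) (u : ℕ)
    (hu : S.Y ω f (i + 1) b = u) :
    ((ω (i, code f (i + 1)) : Fin _) : ℕ) = (u / 2 ^ (b - S.a (i + 1))) % 2 ^ (S.L i) ∧
    ((ω (i + 1, code f (i + 2)) : Fin _) : ℕ) / 2 ^ (S.a (i + 2) - b) =
      u % 2 ^ (b - S.a (i + 1)) := by
  have e1 : S.P ω f (i + 1) = S.P ω f i * 2 ^ (S.L i) + (ω (i, code f (i + 1)) : ℕ) := by
    conv_lhs => simp only [P]
    rw [if_neg h1]
  have e2 : S.P ω f (i + 2) = S.P ω f (i + 1) * 2 ^ (S.L (i + 1)) +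
      (ω (i + 1, code f (i + 2)) : ℕ) := by
    conv_lhs => rw [P]
    rw [if_neg h2]
  set w0 : ℕ := (ω (i, code f (i + 1)) : ℕ) with hw0
  set w1 : ℕ := (ω (i + 1, code f (i + 2)) : ℕ) with hw1
  have hw0' : w0 < 2 ^ (S.L i) := (ω (i, code f (i + 1))).2
  have hw1' : w1 < 2 ^ (S.L (i + 1)) := (ω (i + 1, code f (i + 2))).2
  set c := S.a (i + 2) - b with hc
  set e := b - S.a (i + 1) with he
  have hL : S.L (i + 1) = e + c := by
    have := S.a_add_L (i + 1)
    have h3 : S.a (i + 1 + 1) = S.a (i + 2) := rfl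
    omega
  have hY : S.Y ω f (i + 1) b = S.P ω f (i + 2) / 2 ^ c := rfl
  rw [hY, e2, hL, pow_add, ← mul_assoc] at hu
  have hw1e : w1 / 2 ^ c < 2 ^ e := by
    rw [Nat.div_lt_iff_lt_mul (by positivity), ← pow_add, ← hL]
    exact hw1'
  have hu' : S.P ω f (i + 1) * 2 ^ e + w1 / 2 ^ c = u := by
    rw [← hu, mul_comm _ (2 ^ c), Nat.mul_add_div (by positivity)]
  have hu1 : u % 2 ^ e = w1 / 2 ^ c := by
    rw [← hu', mul_comm, Nat.mul_add_mod, Nat.mod_eq_of_lt hw1e]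
  have hu2 : u / 2 ^ e = S.P ω f (i + 1) := by
    rw [← hu', mul_comm, Nat.mul_add_div (by positivity), Nat.div_eq_of_lt hw1e, add_zero]
  refine ⟨?_, hu1.symm⟩
  rw [hu2, e1, mul_comm, Nat.mul_add_mod, Nat.mod_eq_of_lt hw0']

end Scheme

end Pool.Agent.MP72b52d
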