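import Mathlib
import Pool.Agent.Lib.MP_72b52d_lc.Points
import Pool.Agent.Lib.MP_72b52d_lc.Cells

/-!
Union bound over all configurations.
-/

open Set Filter Topology MeasureTheory
open scoped ENNReal

namespace Pool.Agent.MP72b52d

/-- extension of a finite word by `false` -/
def ext {n : ℕ} (σ : Fin n → Bool) : ℕ → Bool := fun p => if h : p < n then σ ⟨p, h⟩ else false

theorem ext_restrict {n : ℕ} (f : ℕ → Bool) : ∀ p < n, ext (fun q : Fin n => f q) p = f p := by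
  intro p hp
  simp [ext, hp]

namespace Scheme

variable (S : Scheme)

theorem prob_Y (i b M : ℕ) (hb : S.a (i + 1) ≤ b) (hb' : b ≤ S.a (i + 2))
    (f : Fin M → ℕ → Bool) (hinj : Function.Injective (fun j => code (f j) (i + 1)))
    (h1 : ∀ j, ¬ Forced i (f j)) (h2 : ∀ j, ¬ Forced (i + 1) (f j)) (B : Finset ℕ) :
    prodm S.L {ω | ∀ j, S.Y ω (f j) (i + 1) b ∈ B} ≤
      ((B.card : ℝ≥0∞) * ((2 : ℝ≥0∞) ^ (b - S.a i))⁻¹) ^ M := by
  classical
  have hinj' : Function.Injective (fun j => code (f j) (i + 2)) := by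
    intro j j' h
    apply hinj
    obtain ⟨-, h3⟩ := code_inj _ _ _ _ h
    exact code_congr _ _ _ (fun p hp => h3 p (by omega))
  let α : (Fin M → ℕ) → Fin M → ℕ := fun u j => (u j / 2 ^ (b - S.a (i + 1))) % 2 ^ (S.L i)
  let β : (Fin M → ℕ) → Fin M → ℕ := fun u j => u j % 2 ^ (b - S.a (i + 1))
  have hsub : {ω : S.Om | ∀ j, S.Y ω (f j) (i + 1) b ∈ B} ⊆
      ⋃ u ∈ Fintype.piFinset (fun _ : Fin M => B),
        {ω : S.Om | ∀ j : Fin M, ((ω (i, code (f j) (i + 1)) : Fin _) : ℕ) = α u j ∧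
          ((ω (i + 1, code (f j) (i + 2)) : Fin _) : ℕ) / 2 ^ (S.a (i + 2) - b) = β u j} := by
    intro ω hω
    simp only [mem_iUnion]
    refine ⟨fun j => S.Y ω (f j) (i + 1) b, ?_, ?_⟩
    · rw [Fintype.mem_piFinset]; exact hω
    · intro j
      exact S.Y_blocks ω (f j) i b hb hb' (h1 j) (h2 j) _ rfl
  refine (measure_mono hsub).trans ?_
  refine (measure_biUnion_finset_le _ _).trans ?_
  have he : S.a (i + 2) - b ≤ S.L (i + 1) := by
    have := S.a_add_L (i + 1)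
    have h3 : S.a (i + 1 + 1) = S.a (i + 2) := rfl
    omega
  have hexp : S.L i + (S.L (i + 1) - (S.a (i + 2) - b)) = b - S.a i := by
    have e1 := S.a_add_L (i + 1)
    have e2 := S.a_add_L i
    have h3 : S.a (i + 1 + 1) = S.a (i + 2) := rfl
    omega
  have hterm : ∀ u ∈ Fintype.piFinset (fun _ : Fin M => B),
      prodm S.L {ω : S.Om | ∀ j : Fin M, ((ω (i, code (f j) (i + 1)) : Fin _) : ℕ) = α u j ∧
          ((ω (i + 1, code (f j) (i + 2)) : Fin _) : ℕ) / 2 ^ (S.a (i + 2) - b) = β u j} ≤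
        (((2 : ℝ≥0∞) ^ (b - S.a i))⁻¹) ^ M := by
    intro u _
    have := prob_blocks S.L i (S.a (i + 2) - b) M (fun j => code (f j) (i + 1))
      (fun j => code (f j) (i + 2)) hinj hinj' (α u) (β u) he
    rw [hexp] at this
    exact this
  refine (Finset.sum_le_card_nsmul _ _ _ hterm).trans ?_
  rw [Fintype.card_piFinset_const, nsmul_eq_mul, mul_pow]
  push_cast
  exact le_refl _

/-- the configuration event at scale `b` in zone `i + 1` -/
def Ev (E : Set ℝ) (δ : ℝ) (n M i b : ℕ) : Set S.Om :=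
  {ω | Good E δ b ∧ ∃ k < n, ∃ u : Fin n → Fin (2 ^ b + 1),
    TSmall E (1 - (k + 1) * δ / 4) b (range (fun q => ((u q : ℕ) : ℤ))) ∧
    ∃ f : Fin M → Fin (i + 2) → Bool,
      Function.Injective (fun j => code (ext (f j)) (i + 1)) ∧
      (∀ j, ¬ Forced i (ext (f j))) ∧ (∀ j, ¬ Forced (i + 1) (ext (f j))) ∧
      ∀ j, S.Y ω (ext (f j)) (i + 1) b ∈
        BadN E (1 - (k + 1) * δ / 4 - δ / 4) b (range (fun q => ((u q : ℕ) : ℤ)))}

theorem Ev_bound (E : Set ℝ) (δ : ℝ) (n M i b : ℕ) (hb : S.a (i + 1) ≤ b)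
    (hb' : b ≤ S.a (i + 2)) :
    prodm S.L (S.Ev E δ n M i b) ≤ ENNReal.ofReal
      ((n * (2 ^ b + 1) ^ n * (2 ^ (i + 2)) ^ M : ℝ) *
        (4 * (2 : ℝ) ^ ((1 - 3 * δ / 4) * b) * ((2 : ℝ) ^ (b - S.a i))⁻¹) ^ M) := by
  classical
  by_cases hg : Good E δ b
  swap
  · have : S.Ev E δ n M i b = ∅ := by
      ext ω; simp only [Ev, hg, false_and, Set.ofPred_false, mem_empty_iff_false]
    rw [this, measure_empty]; exact zero_le
  set V : ℝ := (4 * (2 : ℝ) ^ ((1 - 3 * δ / 4) * b) * ((2 : ℝ) ^ (b - S.a i))⁻¹) ^ M with hV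
  have hV0 : 0 ≤ V := by positivity
  let ι : Type := Fin n × (Fin n → Fin (2 ^ b + 1)) × (Fin M → Fin (i + 2) → Bool)
  let A : ι → Set S.Om := fun x => {ω | TSmall E (1 - ((x.1 : ℕ) + 1) * δ / 4) b (range (fun q => ((x.2.1 q : ℕ) : ℤ))) ∧
      Function.Injective (fun j => code (ext (x.2.2 j)) (i + 1)) ∧
      (∀ j, ¬ Forced i (ext (x.2.2 j))) ∧ (∀ j, ¬ Forced (i + 1) (ext (x.2.2 j))) ∧
      ∀ j, S.Y ω (ext (x.2.2 j)) (i + 1) b ∈
        BadN E (1 - ((x.1 : ℕ) + 1) * δ / 4 - δ / 4) b (range (fun q => ((x.2.1 q : ℕ) : ℤ)))}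
  have hsub : S.Ev E δ n M i b ⊆ ⋃ x ∈ (Finset.univ : Finset ι), A x := by
    rintro ω ⟨-, k, hk, u, hT, f, h1, h2, h3, h4⟩
    simp only [mem_iUnion, Finset.mem_univ, exists_prop, true_and]
    exact ⟨(⟨k, hk⟩, u, f), hT, h1, h2, h3, h4⟩
  refine (measure_mono hsub).trans ?_
  refine (measure_biUnion_finset_le _ _).trans ?_
  have hterm : ∀ x ∈ (Finset.univ : Finset ι), prodm S.L (A x) ≤ ENNReal.ofReal V := by
    rintro ⟨k, u, f⟩ _
    by_cases hc : TSmall E (1 - ((k : ℕ) + 1) * δ / 4) b (range (fun q => ((u q : ℕ) : ℤ))) ∧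
      Function.Injective (fun j => code (ext (f j)) (i + 1)) ∧
      (∀ j, ¬ Forced i (ext (f j))) ∧ (∀ j, ¬ Forced (i + 1) (ext (f j)))
    swap
    · have : A (k, u, f) = ∅ := by
        ext ω
        simp only [mem_empty_iff_false, iff_false]
        rintro ⟨h1, h2, h3, h4, -⟩
        exact hc ⟨h1, h2, h3, h4⟩
      rw [this, measure_empty]; exact zero_le
    obtain ⟨hT, h1, h2, h3⟩ := hc
    obtain ⟨hBf, hBc⟩ := BadN_bound hg hT
    have hA : A (k, u, f) ⊆ {ω | ∀ j, S.Y ω (ext (f j)) (i + 1) b ∈ hBf.toFinset} := by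
      rintro ω ⟨-, -, -, -, h⟩ j
      rw [Set.Finite.mem_toFinset]
      exact h j
    refine (measure_mono hA).trans ?_
    refine (S.prob_Y i b M hb hb' (fun j => ext (f j)) h1 h2 h3 hBf.toFinset).trans ?_
    rw [hV, ENNReal.ofReal_pow (by positivity)]
    apply pow_le_pow_left' 
    rw [ENNReal.ofReal_mul (by positivity)]
    rw [← Set.ncard_eq_toFinset_card _ hBf]
    apply mul_le_mul'
    · rw [← ENNReal.ofReal_natCast]
      exact ENNReal.ofReal_le_ofReal hBc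
    · rw [ENNReal.ofReal_inv_of_pos (by positivity), ENNReal.ofReal_pow (by norm_num)]
      simp
  refine (Finset.sum_le_card_nsmul _ _ _ hterm).trans ?_
  rw [nsmul_eq_mul]
  have hcard : (Finset.univ : Finset ι).card = n * ((2 ^ b + 1) ^ n * (2 ^ (i + 2)) ^ M) := by
    rw [Finset.card_univ]
    simp only [ι, Fintype.card_prod, Fintype.card_fin, Fintype.card_pi_const, Fintype.card_bool]
  rw [hcard, ENNReal.ofReal_mul (by positivity), ← ENNReal.ofReal_natCast]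
  apply mul_le_mul' _ le_rfl
  apply ENNReal.ofReal_le_ofReal
  push_cast
  rw [mul_assoc]

end Scheme

end Pool.Agent.MP72b52d
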