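import Mathlib
import Pool.Agent.Lib.MP_72b52d_lc.Union

/-!
Existence of a good realisation.
-/

open Set Filter Topology MeasureTheory
open scoped ENNReal

namespace Pool.Agent.MP72b52d

namespace Scheme

variable (S : Scheme)

theorem numeric {δ : ℝ} (hδ : 0 < δ) (n M l : ℕ) (hM : (n : ℝ) + 2 ≤ δ * M / 2) :
    ∃ b0 : ℕ, ∀ b, b0 ≤ b → ∀ i, S.a (i + 1) ≤ b → b ≤ S.a (i + 2) →
      ((n * (2 ^ b + 1) ^ n * (2 ^ (i + 2)) ^ M : ℝ) *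
        (4 * (2 : ℝ) ^ ((1 - 3 * δ / 4) * b) * ((2 : ℝ) ^ (b - S.a i))⁻¹) ^ M) ≤
        (1 / 2 : ℝ) ^ (b + l + 3) := by
  obtain ⟨i0, hi0⟩ : ∃ i0 : ℕ, 4 / δ ≤ i0 := exists_nat_ge _
  have hlim : Tendsto (fun b : ℕ => ((n : ℝ) * 2 ^ n * 4 ^ M * 2 ^ (l + 3)) *
      ((b : ℝ) ^ M / (2 : ℝ) ^ b)) atTop (𝓝 0) := by
    have := tendsto_pow_const_div_const_pow_of_one_lt M (r := (2 : ℝ)) (by norm_num)
    simpa using this.const_mul ((n : ℝ) * 2 ^ n * 4 ^ M * 2 ^ (l + 3))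
  have hev : ∀ᶠ b : ℕ in atTop, ((n : ℝ) * 2 ^ n * 4 ^ M * 2 ^ (l + 3)) *
      ((b : ℝ) ^ M / (2 : ℝ) ^ b) < 1 := hlim.eventually_lt_const (by norm_num)
  obtain ⟨b1, hb1⟩ := eventually_atTop.mp hev
  refine ⟨max (b1) (S.a (i0 + 2) + 1), fun b hb i hi hi' => ?_⟩
  have hbb1 : b1 ≤ b := (le_max_left _ _).trans hb
  have hbb2 : S.a (i0 + 2) + 1 ≤ b := (le_max_right _ _).trans hb
  have hii0 : i0 ≤ i := by
    by_contra hcon
    have : S.a (i + 2) ≤ S.a (i0 + 2) := S.a_strictMono.monotone (by omega)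
    omega
  have hai : (S.a i : ℝ) ≤ δ * b / 4 := by
    have h1 : i * S.a i ≤ b := (S.grow i).trans hi
    have h2 : (i : ℝ) * S.a i ≤ b := by exact_mod_cast h1
    have h3 : 4 / δ ≤ (i : ℝ) := hi0.trans (by exact_mod_cast hii0)
    have h4 : 4 / δ * S.a i ≤ b := (mul_le_mul_of_nonneg_right h3 (by positivity)).trans h2
    have h5 : 4 * (S.a i : ℝ) ≤ δ * b := by
      have : 4 * (S.a i : ℝ) = δ * (4 / δ * S.a i) := by field_simp
      rw [this]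
      exact mul_le_mul_of_nonneg_left h4 hδ.le
    linarith
  have hab : S.a i ≤ b := (S.a_strictMono.monotone (Nat.le_succ i)).trans hi
  have h2i : (2 : ℝ) ^ (i + 2) ≤ b := by exact_mod_cast (S.big i).trans hi
  -- the factor
  have hfac : 4 * (2 : ℝ) ^ ((1 - 3 * δ / 4) * b) * ((2 : ℝ) ^ (b - S.a i))⁻¹ ≤
      4 * (2 : ℝ) ^ (-(δ * b / 2)) := by
    have e1 : ((2 : ℝ) ^ (b - S.a i))⁻¹ = (2 : ℝ) ^ (-((b : ℝ) - S.a i)) := by
      rw [Real.rpow_neg (by norm_num), ← Nat.cast_sub hab, Real.rpow_natCast]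
    rw [e1, mul_assoc, ← Real.rpow_add (by norm_num)]
    apply mul_le_mul_of_nonneg_left _ (by norm_num)
    apply Real.rpow_le_rpow_of_exponent_le (by norm_num)
    nlinarith
  have hfac0 : 0 ≤ 4 * (2 : ℝ) ^ ((1 - 3 * δ / 4) * b) * ((2 : ℝ) ^ (b - S.a i))⁻¹ := by positivity
  have h1 : (4 * (2 : ℝ) ^ ((1 - 3 * δ / 4) * b) * ((2 : ℝ) ^ (b - S.a i))⁻¹) ^ M ≤
      4 ^ M * ((2 : ℝ) ^ b)⁻¹ ^ (n + 2) := by
    refine (pow_le_pow_left₀ hfac0 hfac M).trans ?_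
    rw [mul_pow]
    apply mul_le_mul_of_nonneg_left _ (by positivity)
    rw [← Real.rpow_natCast, ← Real.rpow_mul (by norm_num), ← Real.rpow_natCast 2 b,
      ← Real.rpow_neg (by norm_num), ← Real.rpow_natCast _ (n + 2), ← Real.rpow_mul (by norm_num)]
    apply Real.rpow_le_rpow_of_exponent_le (by norm_num)
    push_cast
    have hb0 : (0 : ℝ) ≤ b := by positivity
    nlinarith [mul_le_mul_of_nonneg_left hM hb0]
  have h2 : ((2 : ℝ) ^ b + 1) ^ n ≤ (2 ^ b) ^ n * 2 ^ n := by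
    rw [← mul_pow]
    apply pow_le_pow_left₀ (by positivity)
    have : (1 : ℝ) ≤ 2 ^ b := one_le_pow₀ (by norm_num)
    linarith
  have h3 : ((2 : ℝ) ^ (i + 2)) ^ M ≤ (b : ℝ) ^ M := pow_le_pow_left₀ (by positivity) h2i M
  have h4 : ((n * (2 ^ b + 1) ^ n * (2 ^ (i + 2)) ^ M : ℝ) *
        (4 * (2 : ℝ) ^ ((1 - 3 * δ / 4) * b) * ((2 : ℝ) ^ (b - S.a i))⁻¹) ^ M) ≤
      ((n * ((2 ^ b) ^ n * 2 ^ n) * (b : ℝ) ^ M : ℝ) * (4 ^ M * ((2 : ℝ) ^ b)⁻¹ ^ (n + 2))) := by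
    gcongr
  refine h4.trans ?_
  have hp : (0 : ℝ) < 2 ^ b := by positivity
  have e2 : ((n * ((2 ^ b) ^ n * 2 ^ n) * (b : ℝ) ^ M : ℝ) * (4 ^ M * ((2 : ℝ) ^ b)⁻¹ ^ (n + 2))) =
      (((n : ℝ) * 2 ^ n * 4 ^ M * 2 ^ (l + 3)) * ((b : ℝ) ^ M / (2 : ℝ) ^ b)) *
        (1 / 2 : ℝ) ^ (b + l + 3) := by
    have e3 : (1 / 2 : ℝ) ^ (b + l + 3) = ((2 : ℝ) ^ b)⁻¹ * ((2 : ℝ) ^ (l + 3))⁻¹ := by
      rw [one_div, inv_pow, ← mul_inv, ← pow_add, add_assoc]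
    rw [e3]
    generalize (2 : ℝ) ^ b = x at hp ⊢
    have hq : (2 : ℝ) ^ (l + 3) ≠ 0 := by positivity
    generalize (2 : ℝ) ^ (l + 3) = y at hq ⊢
    have hx : x ≠ 0 := hp.ne'
    rw [pow_add, inv_pow]
    field_simp
  rw [e2]
  have h5 := (hb1 b hbb1).le
  calc _ ≤ 1 * (1 / 2 : ℝ) ^ (b + l + 3) := mul_le_mul_of_nonneg_right h5 (by positivity)
    _ = _ := one_mul _

/-- A realisation avoiding all configuration events from some scale on. -/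
theorem exists_omega (E : ℕ → Set ℝ) (δ : ℕ → ℝ) (n M : ℕ → ℕ) (hδ : ∀ l, 0 < δ l)
    (hM : ∀ l, (n l : ℝ) + 2 ≤ δ l * M l / 2) :
    ∃ ω : S.Om, ∀ l, ∀ᶠ b : ℕ in atTop, ∀ i, S.a (i + 1) ≤ b → b < S.a (i + 2) →
      ω ∉ S.Ev (E l) (δ l) (n l) (M l) i b := by
  choose b0 hb0 using fun l => S.numeric (hδ l) (n l) (M l) l (hM l)
  let F : ℕ → ℕ → Set S.Om := fun l b => {ω | b0 l ≤ b ∧ ∃ i, S.a (i + 1) ≤ b ∧ b < S.a (i + 2) ∧
    ω ∈ S.Ev (E l) (δ l) (n l) (M l) i b}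
  have hF : ∀ l b, prodm S.L (F l b) ≤ (2⁻¹ : ℝ≥0∞) ^ (b + l + 3) := by
    intro l b
    by_cases h : b0 l ≤ b ∧ ∃ i, S.a (i + 1) ≤ b ∧ b < S.a (i + 2)
    · obtain ⟨hb, i, h1, h2⟩ := h
      have hsub : F l b ⊆ S.Ev (E l) (δ l) (n l) (M l) i b := by
        rintro ω ⟨-, i', h1', h2', h3⟩
        have : i' = i := by
          have m := S.a_strictMono
          have a1 : i' + 1 < i + 2 := m.lt_iff_lt.mp (lt_of_le_of_lt h1' h2)
          have a2 : i + 1 < i' + 2 := m.lt_iff_lt.mp (lt_of_le_of_lt h1 h2')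
          omega
        rwa [this] at h3
      refine (measure_mono hsub).trans ((S.Ev_bound _ _ _ _ _ _ h1 h2.le).trans ?_)
      refine (ENNReal.ofReal_le_ofReal (hb0 l b hb i h1 h2.le)).trans ?_
      rw [ENNReal.ofReal_pow (by norm_num), one_div, ENNReal.ofReal_inv_of_pos (by norm_num)]
      simp
    · have : F l b = ∅ := by
        ext ω
        simp only [mem_empty_iff_false, iff_false]
        rintro ⟨h1, i, h2, h3, -⟩
        exact h ⟨h1, i, h2, h3⟩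
      rw [this, measure_empty]; exact zero_le
  have hsum : prodm S.L (⋃ l, ⋃ b, F l b) ≤ 2⁻¹ := by
    refine (measure_iUnion_le _).trans ?_
    have h1 : ∀ l, prodm S.L (⋃ b, F l b) ≤ (2⁻¹ : ℝ≥0∞) ^ (l + 2) := by
      intro l
      refine (measure_iUnion_le _).trans ?_
      refine (ENNReal.tsum_le_tsum (hF l)).trans ?_
      have h2 : ∀ b : ℕ, (2⁻¹ : ℝ≥0∞) ^ (b + l + 3) = (2⁻¹ : ℝ≥0∞) ^ (l + 3) * (2⁻¹) ^ b := by
        intro b; rw [← pow_add]; congr 1; ring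
      simp_rw [h2]
      rw [ENNReal.tsum_mul_left, ENNReal.tsum_geometric, ENNReal.one_sub_inv_two, inv_inv,
        pow_succ (2⁻¹ : ℝ≥0∞) (l + 2), mul_assoc, ENNReal.inv_mul_cancel (by simp) (by simp), mul_one]
    refine (ENNReal.tsum_le_tsum h1).trans ?_
    have h2 : ∀ l : ℕ, (2⁻¹ : ℝ≥0∞) ^ (l + 2) = (2⁻¹ : ℝ≥0∞) ^ 2 * (2⁻¹) ^ l := by
      intro b; rw [← pow_add]; congr 1; ring
    rw [tsum_congr h2, ENNReal.tsum_mul_left, ENNReal.tsum_geometric, ENNReal.one_sub_inv_two, inv_inv,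
      pow_succ (2⁻¹ : ℝ≥0∞) 1, mul_assoc, ENNReal.inv_mul_cancel (by simp) (by simp), mul_one,
      pow_one]
  have hne : (⋃ l, ⋃ b, F l b) ≠ univ := by
    intro h
    rw [h, measure_univ] at hsum
    have : (2⁻¹ : ℝ≥0∞) < 1 := by
      rw [ENNReal.inv_lt_one]; norm_num
    exact absurd hsum (not_le.mpr this)
  obtain ⟨ω, hω⟩ := (ne_univ_iff_exists_notMem _).mp hne
  refine ⟨ω, fun l => ?_⟩
  filter_upwards [eventually_ge_atTop (b0 l)] with b hb i h1 h2 h3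
  apply hω
  simp only [mem_iUnion]
  exact ⟨l, b, hb, i, h1, h2, h3⟩

end Scheme

end Pool.Agent.MP72b52d
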