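import Mathlib
import Pool.Agent.Lib.MP_72b52d_lc.Exist

/-!
The perfect set of candidates: every configuration spoils only finitely many of them.
-/

open Set Filter Topology MeasureTheory
open scoped ENNReal

namespace Pool.Agent.MP72b52d

theorem exists_range_eq {F : Set ℝ} (hf : F.Finite) (hne : F.Nonempty) {n : ℕ}
    (hn : F.ncard ≤ n) : ∃ x : Fin n → ℝ, range x = F := by
  classical
  obtain ⟨z, hz⟩ := hne
  have hfin := hf.to_subtype
  have e : F ≃ Fin F.ncard := Finite.equivFinOfCardEq rfl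
  refine ⟨fun q => if h : (q : ℕ) < F.ncard then (e.symm ⟨q, h⟩ : ℝ) else z, ?_⟩
  ext y
  simp only [mem_range]
  constructor
  · rintro ⟨q, rfl⟩
    split_ifs with h
    · exact (e.symm ⟨q, h⟩).2
    · exact hz
  · intro hy
    refine ⟨⟨e ⟨y, hy⟩, lt_of_lt_of_le (e ⟨y, hy⟩).2 hn⟩, ?_⟩
    simp

namespace Scheme

variable (S : Scheme)

theorem zone_exists (b : ℕ) (hb : S.a 1 ≤ b) : ∃ i, S.a (i + 1) ≤ b ∧ b < S.a (i + 2) := by
  classical
  have hex : ∃ i, b < S.a (i + 2) := by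
    refine ⟨b, ?_⟩
    have := S.a_strictMono.le_apply (x := b + 2)
    omega
  refine ⟨Nat.find hex, ?_, Nat.find_spec hex⟩
  by_contra hcon
  rcases Nat.eq_zero_or_pos (Nat.find hex) with h | h
  · rw [h] at hcon; exact hcon hb
  · have := Nat.find_min hex (m := Nat.find hex - 1) (by omega)
    apply this
    have e : Nat.find hex - 1 + 2 = Nat.find hex + 1 := by omega
    rw [e]; omega

theorem bad_finite {E : Set ℝ} {δ : ℝ} {n M : ℕ} (ω : S.Om)
    (hω : ∀ᶠ b : ℕ in atTop, ∀ i, S.a (i + 1) ≤ b → b < S.a (i + 2) → ω ∉ S.Ev E δ n M i b)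
    {F : Set ℝ} (hf : F.Finite) (hne : F.Nonempty) (hF : F ⊆ Icc 0 1) (hn : F.ncard ≤ n)
    {k : ℕ} (hk : k < n) (hs : Small E δ k F) :
    {f : ℕ → Bool | ¬ Small E δ (k + 1) (insert (S.pt ω f) F)}.Finite := by
  classical
  by_contra hinf
  have hinf' : {f : ℕ → Bool | ¬ Small E δ (k + 1) (insert (S.pt ω f) F)}.Infinite := hinf
  let em := hinf'.natEmbedding
  let f : Fin (M + 1) → ℕ → Bool := fun j => (em j : ℕ → Bool)
  have hfinj : Function.Injective f := by
    intro j j' h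
    have : em (j : ℕ) = em (j' : ℕ) := Subtype.ext h
    exact Fin.ext (em.injective this)
  have hfbad : ∀ j, ¬ Small E δ (k + 1) (insert (S.pt ω (f j)) F) := fun j => (em j).2
  have hd : ∀ j j' : Fin (M + 1), ∃ d, j ≠ j' → f j d ≠ f j' d := by
    intro j j'
    by_cases h : j = j'
    · exact ⟨0, fun h' => absurd h h'⟩
    · have h1 : f j ≠ f j' := fun h2 => h (hfinj h2)
      obtain ⟨d, hd⟩ := Function.ne_iff.mp h1
      exact ⟨d, fun _ => hd⟩
  choose d hd using hd
  let i1 : ℕ := ∑ j : Fin (M + 1), ∑ j' : Fin (M + 1), (d j j' + 3 * code (f j) (d j j') + 1)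
  have hi1 : ∀ j j', d j j' + 3 * code (f j) (d j j') + 1 ≤ i1 := by
    intro j j'
    have h1 : (d j j' + 3 * code (f j) (d j j') + 1) ≤
        ∑ j' : Fin (M + 1), (d j j' + 3 * code (f j) (d j j') + 1) :=
      Finset.single_le_sum (f := fun j' => d j j' + 3 * code (f j) (d j j') + 1)
        (fun _ _ => Nat.zero_le _) (Finset.mem_univ j')
    exact h1.trans (Finset.single_le_sum
      (f := fun j => ∑ j' : Fin (M + 1), (d j j' + 3 * code (f j) (d j j') + 1))
        (fun _ _ => Nat.zero_le _) (Finset.mem_univ j))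
  have hbad : ∀ᶠ b : ℕ in atTop, ∀ j : Fin (M + 1), ¬ (Good E δ b ∧
      TSmall E (1 - (((k + 1 : ℕ) : ℝ) + 1) * δ / 4) b (pos b (insert (S.pt ω (f j)) F))) := by
    rw [eventually_all]
    intro j
    exact not_frequently.mp (hfbad j)
  obtain ⟨b, ⟨hg, hT⟩, hb1, hb2, hb3, hb4⟩ := (hs.and_eventually (hω.and (hbad.and
    ((eventually_ge_atTop (S.a (i1 + 2))).and (eventually_ge_atTop (S.a 1)))))).exists
  obtain ⟨i, hi1', hi2'⟩ := S.zone_exists b hb4
  have hii : i1 < i := by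
    have h1 : S.a (i1 + 2) < S.a (i + 2) := lt_of_le_of_lt hb3 hi2'
    have := S.a_strictMono.lt_iff_lt.mp h1
    omega
  -- at most one non free index
  have hfree : ∀ j j', j ≠ j' → FreeZone (i + 1) (f j) ∨ FreeZone (i + 1) (f j') := by
    intro j j' hjj
    apply free_or (hd j j' hjj)
    have := hi1 j j'
    omega
  obtain ⟨j0, hj0⟩ : ∃ j0 : Fin (M + 1), ∀ j, j ≠ j0 → FreeZone (i + 1) (f j) := by
    by_cases h : ∃ j0, ¬ FreeZone (i + 1) (f j0)
    · obtain ⟨j0, hj0⟩ := h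
      refine ⟨j0, fun j hj => ?_⟩
      rcases hfree j j0 hj with h | h
      · exact h
      · exact absurd h hj0
    · push Not at h
      exact ⟨0, fun j _ => h j⟩
  apply hb1 i hi1' hi2'
  obtain ⟨x, hx⟩ := exists_range_eq hf hne hn
  have hx01 : ∀ q, x q ∈ Icc (0 : ℝ) 1 := fun q => hF (hx ▸ mem_range_self q)
  have hfl : ∀ q, 0 ≤ ⌊(2 : ℝ) ^ b * x q⌋ ∧ ⌊(2 : ℝ) ^ b * x q⌋ < 2 ^ b + 1 := by
    intro q
    obtain ⟨h0, h1⟩ := hx01 q
    constructor
    · apply Int.floor_nonneg.mpr; positivity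
    · rw [Int.floor_lt]
      push_cast
      have : (2 : ℝ) ^ b * x q ≤ 2 ^ b * 1 := mul_le_mul_of_nonneg_left h1 (by positivity)
      linarith
  let u : Fin n → Fin (2 ^ b + 1) := fun q => ⟨(⌊(2 : ℝ) ^ b * x q⌋).toNat, by
    have h1 := (hfl q).1
    have h2 := (hfl q).2
    have h3 : (((⌊(2 : ℝ) ^ b * x q⌋).toNat : ℕ) : ℤ) < ((2 ^ b + 1 : ℕ) : ℤ) := by
      rw [Int.toNat_of_nonneg h1]; push_cast; exact h2
    exact_mod_cast h3⟩
  have hu : range (fun q => ((u q : ℕ) : ℤ)) = pos b F := by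
    have h1 : (fun q => ((u q : ℕ) : ℤ)) = fun q => ⌊(2 : ℝ) ^ b * x q⌋ := by
      funext q
      exact Int.toNat_of_nonneg (hfl q).1
    rw [h1]
    unfold pos
    rw [← hx, ← range_comp]
    rfl
  refine ⟨hg, k, hk, u, by rw [hu]; exact hT, fun j q => f (j0.succAbove j) q, ?_, ?_, ?_, ?_⟩
  · intro j j' h
    by_contra hne'
    have hne2 : j0.succAbove j ≠ j0.succAbove j' := fun h => hne' (Fin.succAbove_right_injective h)
    have e1 : code (ext (fun q : Fin (i + 2) => f (j0.succAbove j) q)) (i + 1) =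
        code (f (j0.succAbove j)) (i + 1) :=
      code_congr _ _ _ (fun p hp => ext_restrict (f (j0.succAbove j)) p (by omega))
    have e2 : code (ext (fun q : Fin (i + 2) => f (j0.succAbove j') q)) (i + 1) =
        code (f (j0.succAbove j')) (i + 1) :=
      code_congr _ _ _ (fun p hp => ext_restrict (f (j0.succAbove j')) p (by omega))
    have h' : code (f (j0.succAbove j)) (i + 1) = code (f (j0.succAbove j')) (i + 1) := by
      rw [← e1, ← e2]; exact h
    obtain ⟨-, h3⟩ := code_inj _ _ _ _ h'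
    have h4 := hi1 (j0.succAbove j) (j0.succAbove j')
    exact hd _ _ hne2 (h3 _ (by omega))
  · intro j
    have := (hj0 _ (Fin.succAbove_ne j0 j)).2
    rw [Nat.add_sub_cancel] at this
    rwa [forced_congr (fun p hp => ext_restrict (f (j0.succAbove j)) p (by omega))]
  · intro j
    have := (hj0 _ (Fin.succAbove_ne j0 j)).1
    rwa [forced_congr (fun p hp => ext_restrict (f (j0.succAbove j)) p (by omega))]
  · intro j
    rw [hu]
    have e1 : S.Y ω (ext (fun q : Fin (i + 2) => f (j0.succAbove j) q)) (i + 1) b =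
        S.Y ω (f (j0.succAbove j)) (i + 1) b :=
      S.Y_congr ω _ _ _ _ (fun p hp => ext_restrict (f (j0.succAbove j)) p (by omega))
    rw [e1]
    have h1 := hb2 (j0.succAbove j)
    have h2 : ¬ TSmall E (1 - (k + 1) * δ / 4 - δ / 4) b
        (insert ⌊(2 : ℝ) ^ b * S.pt ω (f (j0.succAbove j))⌋ (pos b F)) := by
      intro h3
      apply h1
      refine ⟨hg, ?_⟩
      rw [pos_insert]
      have e2 : 1 - (((k + 1 : ℕ) : ℝ) + 1) * δ / 4 = 1 - (k + 1) * δ / 4 - δ / 4 := by
        push_cast; ring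
      rw [e2]; exact h3
    rcases S.Y_floor ω (f (j0.succAbove j)) (i + 1) b hi2'.le with h3 | h3
    · left
      show ¬ TSmall _ _ _ _
      rw [← h3]; exact h2
    · right
      show ¬ TSmall _ _ _ _
      rw [← h3]; exact h2

end Scheme

end Pool.Agent.MP72b52d
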