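import Mathlib
import Pool.Agent.Lib.MP_72b52d_lc.Perfect

/-!
Existence of schemes for a sequence of dense open sets.
-/

open Set Filter Topology

namespace Pool.Agent.MP72b52d

theorem extension_one {V : Set ℝ} (hVo : IsOpen V) (hVd : Dense V) (a Y : ℕ) :
    ∃ L0 : ℕ, ∀ a', L0 ≤ a' → a ≤ a' → ∃ Z : ℕ, Z / 2 ^ (a' - a) = Y ∧
      Icc ((Z : ℝ) / 2 ^ a') ((Z + 1 : ℝ) / 2 ^ a') ⊆ V := by
  have ha : (0 : ℝ) < 2 ^ a := by positivity
  have hlt : (Y : ℝ) / 2 ^ a < (Y + 1 : ℝ) / 2 ^ a := by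
    apply div_lt_div_of_pos_right _ ha; linarith
  obtain ⟨x, hxV, hx⟩ := hVd.exists_mem_open (isOpen_Ioo (a := (Y : ℝ) / 2 ^ a)
    (b := (Y + 1 : ℝ) / 2 ^ a)) (nonempty_Ioo.mpr hlt)
  obtain ⟨r, hr, hball⟩ := Metric.isOpen_iff.mp hVo x hxV
  have hx' : x ∈ Ioo ((Y : ℝ) / 2 ^ a) ((Y + 1 : ℝ) / 2 ^ a) := hx
  obtain ⟨L0, hL0⟩ := exists_pow_lt_of_lt_one hr (by norm_num : (1 / 2 : ℝ) < 1)
  refine ⟨L0, fun a' h1 h2 => ?_⟩
  have ha' : (0 : ℝ) < 2 ^ a' := by positivity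
  have hx0 : 0 ≤ x := le_trans (by positivity) hx'.1.le
  have hfl1 : (⌊x * 2 ^ a'⌋₊ : ℝ) ≤ x * 2 ^ a' := Nat.floor_le (by positivity)
  have hfl2 : x * 2 ^ a' < ⌊x * 2 ^ a'⌋₊ + 1 := Nat.lt_floor_add_one _
  refine ⟨⌊x * 2 ^ a'⌋₊, ?_, ?_⟩
  · have e1 : (2 : ℝ) ^ a' = 2 ^ a * 2 ^ (a' - a) := by rw [← pow_add]; congr 1; omega
    have e2 : ⌊x * 2 ^ a'⌋₊ / 2 ^ (a' - a) = ⌊x * 2 ^ a' / ((2 ^ (a' - a) : ℕ) : ℝ)⌋₊ :=
      (Nat.floor_div_natCast _ _).symm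
    rw [e2, e1]
    push_cast
    rw [← mul_assoc, mul_div_assoc, div_self (by positivity), mul_one]
    rw [Nat.floor_eq_iff (by positivity)]
    constructor
    · have := hx'.1
      rw [div_lt_iff₀ ha] at this
      exact this.le
    · have := hx'.2
      rw [lt_div_iff₀ ha] at this
      exact this
  · intro y hy
    apply hball
    rw [Metric.mem_ball, Real.dist_eq]
    have h3 : (1 / 2 : ℝ) ^ a' ≤ (1 / 2) ^ L0 := pow_le_pow_of_le_one (by norm_num) (by norm_num) h1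
    have h4 : (1 / 2 : ℝ) ^ a' = 1 / 2 ^ a' := by rw [one_div, inv_pow, one_div]
    have h5 : (⌊x * 2 ^ a'⌋₊ : ℝ) / 2 ^ a' ≤ x := by rw [div_le_iff₀ ha']; exact hfl1
    have h6 : x ≤ (⌊x * 2 ^ a'⌋₊ + 1 : ℝ) / 2 ^ a' := by rw [le_div_iff₀ ha']; exact hfl2.le
    have h7 : (⌊x * 2 ^ a'⌋₊ + 1 : ℝ) / 2 ^ a' = (⌊x * 2 ^ a'⌋₊ : ℝ) / 2 ^ a' + 1 / 2 ^ a' := by
      rw [add_div]
    obtain ⟨hy1, hy2⟩ := hy
    rw [abs_lt]
    constructor
    · linarith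
    · linarith

theorem extension_all {V : Set ℝ} (hVo : IsOpen V) (hVd : Dense V) (a : ℕ) :
    ∃ L0 : ℕ, ∀ a', L0 ≤ a' → a ≤ a' → ∀ Y < 2 ^ a, ∃ Z : ℕ, Z / 2 ^ (a' - a) = Y ∧
      Icc ((Z : ℝ) / 2 ^ a') ((Z + 1 : ℝ) / 2 ^ a') ⊆ V := by
  choose L hL using fun Y : ℕ => extension_one hVo hVd a Y
  refine ⟨(Finset.range (2 ^ a)).sup L, fun a' h1 h2 Y hY => ?_⟩
  exact hL Y a' ((Finset.le_sup (f := L) (Finset.mem_range.mpr hY)).trans h1) h2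

theorem exists_scheme (U : ℕ → Set ℝ) (hUo : ∀ n, IsOpen (U n)) (hUd : ∀ n, Dense (U n)) :
    ∃ S : Scheme, ∀ n, S.U n ⊆ U n := by
  classical
  let V : ℕ → Set ℝ := fun n => ⋂ m ∈ Finset.range (n + 1), U m
  have hVo : ∀ n, IsOpen (V n) := fun n => isOpen_biInter_finset (fun m _ => hUo m)
  have hVd : ∀ n, Dense (V n) := by
    intro n
    have : ∀ s : Finset ℕ, Dense (⋂ m ∈ s, U m) ∧ IsOpen (⋂ m ∈ s, U m) := by
      intro s
      induction s using Finset.induction_on with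
      | empty => simp
      | insert m s hm ih =>
        rw [Finset.set_biInter_insert]
        exact ⟨(hUd m).inter_of_isOpen_left ih.1 (hUo m), (hUo m).inter ih.2⟩
    exact (this _).1
  have hVa : Antitone V := by
    intro n n' h x hx
    simp only [V, mem_iInter, Finset.mem_range] at hx ⊢
    intro m hm
    exact hx m (by omega)
  choose L0 hL0 using fun (n a : ℕ) => extension_all (hVo n) (hVd n) a
  let a : ℕ → ℕ := fun i => Nat.rec 0 (fun i ai => L0 i ai + i * ai + 2 ^ (i + 2) + ai + 1) i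
  have ha0 : a 0 = 0 := rfl
  have has : ∀ i, a (i + 1) = L0 i (a i) + i * a i + 2 ^ (i + 2) + a i + 1 := fun i => rfl
  have hs1 : ∀ i, L0 i (a i) ≤ a (i + 1) := fun i => by
    rw [has]; have : 0 < 2 ^ (i + 2) := by positivity
    omega
  have hs2 : ∀ i, a i < a (i + 1) := fun i => by
    rw [has]; have : 0 < 2 ^ (i + 2) := by positivity
    omega
  have hs3 : ∀ i, i * a i ≤ a (i + 1) := fun i => by
    rw [has]; have : 0 < 2 ^ (i + 2) := by positivity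
    omega
  have hs4 : ∀ i, 2 ^ (i + 2) ≤ a (i + 1) := fun i => by
    rw [has]; have : 0 < 2 ^ (i + 2) := by positivity
    omega
  have hg : ∀ i Y, ∃ Z : ℕ, Y < 2 ^ (a i) → Z / 2 ^ (a (i + 1) - a i) = Y ∧
      Icc ((Z : ℝ) / 2 ^ (a (i + 1))) ((Z + 1 : ℝ) / 2 ^ (a (i + 1))) ⊆ V i := by
    intro i Y
    by_cases hY : Y < 2 ^ (a i)
    · obtain ⟨Z, hZ⟩ := hL0 i (a i) (a (i + 1)) (hs1 i) (hs2 i).le Y hY
      exact ⟨Z, fun _ => hZ⟩
    · exact ⟨0, fun h => absurd h hY⟩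
  choose g hg using hg
  refine ⟨⟨a, g, V, ha0, hs2, fun i Y hY => (hg i Y hY).1,
    fun i Y hY => (hg i Y hY).2, hVa, hs3, hs4⟩, ?_⟩
  intro n x hx
  have hx' : x ∈ V n := hx
  simp only [V, mem_iInter, Finset.mem_range] at hx'
  exact hx' n (by omega)

end Pool.Agent.MP72b52d
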