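import Mathlib
import Pool.Agent.Lib.MP_72b52d_lc.Schemes

/-!
Transfinite recursion.
-/

open Set Filter Topology Cardinal

namespace Pool.Agent.MP72b52d

/-- sequences of dense open sets of reals -/
structure DSeq : Type where
  U : ℕ → Set ℝ
  h : ∀ n, IsOpen (U n) ∧ Dense (U n)

theorem mk_DSeq_le : #DSeq ≤ 𝔠 := by
  have h1 : Function.Injective (fun (U : DSeq) (n : ℕ) =>
      {r : ℚ × ℚ | Ioo (r.1 : ℝ) r.2 ⊆ U.1 n}) := by
    intro U V h
    suffices hUV : U.1 = V.1 by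
      cases U; cases V; simp only [DSeq.mk.injEq]; exact hUV
    funext n
    have hn : {r : ℚ × ℚ | Ioo (r.1 : ℝ) r.2 ⊆ U.1 n} = {r : ℚ × ℚ | Ioo (r.1 : ℝ) r.2 ⊆ V.1 n} :=
      congrFun h n
    have key : ∀ A B : Set ℝ, IsOpen A → {r : ℚ × ℚ | Ioo (r.1 : ℝ) r.2 ⊆ A} ⊆
        {r : ℚ × ℚ | Ioo (r.1 : ℝ) r.2 ⊆ B} → A ⊆ B := by
      intro A B hA hAB x hx
      obtain ⟨r, hr, hball⟩ := Metric.isOpen_iff.mp hA x hx
      obtain ⟨p, hp1, hp2⟩ := exists_rat_btwn (show x - r < x by linarith)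
      obtain ⟨q, hq1, hq2⟩ := exists_rat_btwn (show x < x + r by linarith)
      have hsub : Ioo (p : ℝ) q ⊆ A := by
        intro y hy
        apply hball
        rw [Metric.mem_ball, Real.dist_eq, abs_lt]
        constructor
        · linarith [hy.1]
        · linarith [hy.2]
      have h2 : Ioo (p : ℝ) q ⊆ B := hAB (show (p, q) ∈ {r : ℚ × ℚ | Ioo (r.1 : ℝ) r.2 ⊆ A} from hsub)
      exact h2 ⟨hp2, hq1⟩
    exact Subset.antisymm (key _ _ (U.2 n).1 hn.le) (key _ _ (V.2 n).1 hn.ge)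
  refine (mk_le_of_injective h1).trans ?_
  have : #(ℕ → Set (ℚ × ℚ)) = 𝔠 := by simp
  exact this.le

theorem mk_finset_lt {A : Type} (h : #A < 𝔠) : #(Finset A) < 𝔠 := by
  rcases finite_or_infinite A with hA | hA
  · exact (lt_aleph0_of_finite (Finset A)).trans aleph0_lt_continuum
  · rw [mk_finset_of_infinite]; exact h

variable {E : ℕ → Set ℝ} {δ : ℕ → ℝ} {n : ℕ → ℕ}

theorem exists_point (hδ : ∀ l, 0 < δ l) (A : Set ℝ) (hA : #A < 𝔠) (U : DSeq) :
    ∃ y ∈ Icc (0 : ℝ) 1, (∀ m, y ∈ U.1 m) ∧ ∀ l, ∀ F : Set ℝ, F ⊆ A → F.Finite → F.Nonempty →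
      F ⊆ Icc 0 1 → F.ncard ≤ n l → ∀ k < n l, Small (E l) (δ l) k F →
        Small (E l) (δ l) (k + 1) (insert y F) := by
  classical
  obtain ⟨S, hS⟩ := exists_scheme U.1 (fun m => (U.2 m).1) (fun m => (U.2 m).2)
  have hM : ∀ l, ∃ M : ℕ, (n l : ℝ) + 2 ≤ δ l * M / 2 := by
    intro l
    obtain ⟨M, hM⟩ := exists_nat_ge (2 * ((n l : ℝ) + 2) / δ l)
    refine ⟨M, ?_⟩
    rw [div_le_iff₀ (hδ l)] at hM
    linarith
  choose M hM using hM
  obtain ⟨ω, hω⟩ := S.exists_omega E δ n M hδ hM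
  let J : Type := Finset A × ℕ × ℕ
  let FF : Finset A → Set ℝ := fun s => (Subtype.val) '' (s : Set A)
  let bad : J → Set (ℕ → Bool) := fun q =>
    if (FF q.1).Nonempty ∧ FF q.1 ⊆ Icc 0 1 ∧ (FF q.1).ncard ≤ n q.2.1 ∧ q.2.2 < n q.2.1 ∧
      Small (E q.2.1) (δ q.2.1) q.2.2 (FF q.1) then
      {f : ℕ → Bool | ¬ Small (E q.2.1) (δ q.2.1) (q.2.2 + 1) (insert (S.pt ω f) (FF q.1))}
    else ∅
  have hbad : ∀ q, (bad q).Finite := by
    rintro ⟨s, l, k⟩
    simp only [bad]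
    split_ifs with h
    · obtain ⟨h1, h2, h3, h4, h5⟩ := h
      exact S.bad_finite ω (hω l) ((Finset.finite_toSet s).image _) h1 h2 h3 h4 h5
    · exact Set.finite_empty
  have hJ : #J < 𝔠 := by
    have h1 := mk_finset_lt hA
    have h2 : #(ℕ × ℕ) < 𝔠 := by
      rw [mk_eq_aleph0]; exact aleph0_lt_continuum
    have h3 : #J = #(Finset A) * #(ℕ × ℕ) := by
      simp only [J, mk_prod, lift_id]
    rw [h3]
    exact mul_lt_of_lt aleph0_le_continuum h1 h2
  have hcard : #(⋃ q, bad q) < #(ℕ → Bool) := by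
    have h1 : #(ℕ → Bool) = 𝔠 := by simp
    rw [h1]
    refine lt_of_le_of_lt (mk_iUnion_le_sum_mk) ?_
    have h2 : Cardinal.sum (fun q => #(bad q)) ≤ Cardinal.sum (fun _ : J => ℵ₀) :=
      Cardinal.sum_le_sum _ _ (fun q => (hbad q).countable.le_aleph0)
    refine lt_of_le_of_lt h2 ?_
    rw [Cardinal.sum_const, lift_id, lift_id]
    exact mul_lt_of_lt aleph0_le_continuum hJ aleph0_lt_continuum
  have hne : (⋃ q, bad q) ≠ Set.univ := by
    intro h
    rw [h, mk_univ] at hcard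
    exact lt_irrefl _ hcard
  obtain ⟨f, hf⟩ := (ne_univ_iff_exists_notMem _).mp hne
  refine ⟨S.pt ω f, S.pt_mem_Icc ω f, fun m => hS m (S.pt_mem_U ω f m), ?_⟩
  intro l F hFA hFf hFn hF01 hFc k hk hs
  by_contra hcon
  apply hf
  have hfin : (Subtype.val ⁻¹' F : Set A).Finite := hFf.preimage Subtype.val_injective.injOn
  have hFF : FF hfin.toFinset = F := by
    simp only [FF, Set.Finite.coe_toFinset]
    rw [Subtype.image_preimage_coe, inter_eq_right.mpr hFA]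
  rw [mem_iUnion]
  refine ⟨(hfin.toFinset, l, k), ?_⟩
  have hcond : (FF hfin.toFinset).Nonempty ∧ FF hfin.toFinset ⊆ Icc 0 1 ∧
      (FF hfin.toFinset).ncard ≤ n l ∧ k < n l ∧ Small (E l) (δ l) k (FF hfin.toFinset) := by
    rw [hFF]; exact ⟨hFn, hF01, hFc, hk, hs⟩
  simp only [bad]
  rw [if_pos hcond, hFF]
  exact hcon

theorem exists_family (hδ : ∀ l, 0 < δ l) (hE : ∀ l, ∃ᶠ b : ℕ in atTop, Good (E l) (δ l) b) :
    ∃ X : Set ℝ, (∀ U : DSeq, ∃ y ∈ X, ∀ m, y ∈ U.1 m) ∧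
      ∀ l k, k < n l → ∀ F : Set ℝ, F ⊆ X → F.Finite → F.ncard = k + 1 →
        Small (E l) (δ l) (k + 1) F := by
  classical
  obtain ⟨ord, wf, hord⟩ := exists_ord_eq_type_lt DSeq
  have hIio : ∀ i : DSeq, #(Iio i) < 𝔠 := fun i =>
    lt_of_lt_of_le (Cardinal.mk_Iio_lt i hord) mk_DSeq_le
  let stepf : DSeq → Set ℝ → ℝ := fun i A =>
    if h : #A < 𝔠 then Classical.choose (exists_point (E := E) (n := n) hδ A h i) else 0
  let x : DSeq → ℝ := wf.wf.fix (C := fun _ => ℝ)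
    (fun i rec => stepf i (range (fun j : Iio i => rec j.1 (mem_Iio.mp j.2))))
  have hx : ∀ i, x i = stepf i (x '' Iio i) := by
    intro i
    have h1 : x i = stepf i (range (fun j : Iio i => x j.1)) :=
      wf.wf.fix_eq (C := fun _ => ℝ)
        (fun i rec => stepf i (range (fun j : Iio i => rec j.1 (mem_Iio.mp j.2)))) i
    rw [h1]
    congr 1
    ext y
    simp
  have hcA : ∀ i, #(x '' Iio i) < 𝔠 := fun i => lt_of_le_of_lt mk_image_le (hIio i)
  have hspec : ∀ i : DSeq, x i ∈ Icc (0 : ℝ) 1 ∧ (∀ m, x i ∈ i.1 m) ∧ ∀ l, ∀ F : Set ℝ,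
      F ⊆ x '' Iio i → F.Finite → F.Nonempty →
      F ⊆ Icc 0 1 → F.ncard ≤ n l → ∀ k < n l, Small (E l) (δ l) k F →
        Small (E l) (δ l) (k + 1) (insert (x i) F) := by
    intro i
    have h1 : x i = Classical.choose (exists_point (E := E) (n := n) hδ (x '' Iio i) (hcA i) i) := by
      rw [hx i]
      simp only [stepf]
      rw [dif_pos (hcA i)]
    have h2 := Classical.choose_spec (exists_point (E := E) (n := n) hδ (x '' Iio i) (hcA i) i)
    rw [← h1] at h2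
    exact h2
  refine ⟨range x, fun U => ⟨x U, mem_range_self U, (hspec U).2.1⟩, ?_⟩
  have hX01 : range x ⊆ Icc 0 1 := by
    rintro _ ⟨i, rfl⟩; exact (hspec i).1
  intro l k
  induction k with
  | zero =>
    intro _ F _ _ hc
    obtain ⟨y, rfl⟩ := Set.ncard_eq_one.mp hc
    exact small_one (hδ l) (hE l) y
  | succ k ih =>
    intro hk F hFX hFf hc
    have hne : F.Nonempty := by
      rw [← Set.ncard_pos hFf]; omega
    have : Nonempty DSeq := by
      obtain ⟨y, hy⟩ := hne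
      obtain ⟨i, -⟩ := hFX hy
      exact ⟨i⟩
    choose! φ hφ using fun y (hy : y ∈ F) => hFX hy
    let T : Finset DSeq := hFf.toFinset.image φ
    have hT : T.Nonempty := by
      obtain ⟨y, hy⟩ := hne
      exact ⟨φ y, Finset.mem_image_of_mem _ (by simpa using hy)⟩
    let i := T.max' hT
    obtain ⟨y0, hy0, hy0i⟩ : ∃ y0 ∈ F, φ y0 = i := by
      have := T.max'_mem hT
      obtain ⟨y0, h1, h2⟩ := Finset.mem_image.mp this
      exact ⟨y0, by simpa using h1, h2⟩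
    have hxi : x i = y0 := by rw [← hy0i]; exact hφ y0 hy0
    have hsub : F \ {y0} ⊆ x '' Iio i := by
      rintro y ⟨hy, hyne⟩
      refine ⟨φ y, ?_, hφ y hy⟩
      have h1 : φ y ≤ i := T.le_max' _ (Finset.mem_image_of_mem _ (by simpa using hy))
      refine lt_of_le_of_ne h1 ?_
      intro h2
      apply hyne
      rw [mem_singleton_iff, ← hxi, ← h2, hφ y hy]
    have hcd : (F \ {y0}).ncard = k + 1 := by
      rw [Set.ncard_sdiff_singleton_of_mem hy0, hc]; omega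
    have hfd : (F \ {y0}).Finite := hFf.subset sdiff_subset
    have hnd : (F \ {y0}).Nonempty := by
      rw [← Set.ncard_pos hfd]; omega
    have h3 := ih (by omega) (F \ {y0}) (sdiff_subset.trans hFX) hfd hcd
    have h4 := (hspec i).2.2 l (F \ {y0}) hsub hfd hnd ((sdiff_subset.trans hFX).trans hX01)
      (by omega) (k + 1) hk h3
    rw [hxi, insert_sdiff_singleton, insert_eq_of_mem hy0] at h4
    exact h4

/-- Main construction: a non-meagre set meeting every translate of each `E l` in boundedly many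
points. -/
theorem exists_nonmeagre (hδ : ∀ l, 0 < δ l) (hE : ∀ l, ∃ᶠ b : ℕ in atTop, Good (E l) (δ l) b) :
    ∃ X : Set ℝ, ¬ IsMeagre X ∧ ∀ l, ∃ N : ℕ, ∀ t : ℝ, {x ∈ X | x - t ∈ E l}.encard ≤ N := by
  classical
  have hn : ∀ l, ∃ m : ℕ, 4 < ((m : ℝ) + 1 + 1) * δ l := by
    intro l
    obtain ⟨m, hm⟩ := exists_nat_gt (4 / δ l)
    refine ⟨m, ?_⟩
    rw [div_lt_iff₀ (hδ l)] at hm
    nlinarith [hδ l]
  choose m hm using hn
  obtain ⟨X, hX1, hX2⟩ := exists_family (E := E) (δ := δ) (n := fun l => m l + 1) hδ hE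
  refine ⟨X, ?_, ?_⟩
  · intro hmeagre
    obtain ⟨U, hUo, hUd, hUX⟩ : ∃ U : ℕ → Set ℝ, (∀ n, IsOpen (U n)) ∧ (∀ n, Dense (U n)) ∧
        ⋂ n, U n ⊆ Xᶜ := by
      have h1 : Xᶜ ∈ residual ℝ := hmeagre
      rw [mem_residual_iff] at h1
      obtain ⟨S, hS1, hS2, hS3, hS4⟩ := h1
      rcases S.eq_empty_or_nonempty with h | h
      · refine ⟨fun _ => univ, fun _ => isOpen_univ, fun _ => dense_univ, ?_⟩
        rw [h, sInter_empty] at hS4
        simpa using hS4
      · obtain ⟨U, hU⟩ := hS3.exists_eq_range h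
        refine ⟨U, fun n => hS1 _ (hU ▸ mem_range_self n), fun n => hS2 _ (hU ▸ mem_range_self n), ?_⟩
        rw [hU, sInter_range] at hS4
        exact hS4
    obtain ⟨y, hy, hy2⟩ := hX1 ⟨U, fun n => ⟨hUo n, hUd n⟩⟩
    exact hUX (mem_iInter.mpr hy2) hy
  · intro l
    refine ⟨m l + 1, fun t => ?_⟩
    by_contra hcon
    rw [not_le] at hcon
    obtain ⟨F, hF1, hF2⟩ := Set.exists_subset_encard_eq (hcon.le)
    have hFf : F.Finite := Set.finite_of_encard_eq_coe (k := m l + 1) (by simpa using hF2)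
    have hFc : F.ncard = m l + 1 := by
      rw [Set.ncard, hF2]; rfl
    have h1 := hX2 l (m l) (Nat.lt_succ_self _) F (hF1.trans (fun _ h => h.1)) hFf hFc
    refine small_large (k := m l + 1) ?_ h1 t (fun x hx => (hF1 hx).2)
    push_cast
    exact hm l

end Pool.Agent.MP72b52d
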