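import Mathlib
import Pool.Agent.Lib.MP_72b52d_lc.Cells

/-!
The classical Cantor set has few dyadic cells.
-/

open Set Filter Topology

namespace Pool.Agent.MP72b52d

theorem cantor_cover (n : ℕ) : ∃ P : Finset ℝ, P.card ≤ 2 ^ n ∧
    cantorSet ⊆ ⋃ p ∈ P, Icc p (p + (1 / 3 : ℝ) ^ n) := by
  classical
  induction n with
  | zero =>
    refine ⟨{0}, by simp, ?_⟩
    intro x hx
    have := cantorSet_subset_unitInterval hx
    simpa using this
  | succ n ih =>
    obtain ⟨P, hP, hc⟩ := ih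
    refine ⟨P.image (fun p => p / 3) ∪ P.image (fun p => (2 + p) / 3), ?_, ?_⟩
    · refine (Finset.card_union_le _ _).trans ?_
      have h1 : (P.image (fun p => p / 3)).card ≤ P.card := Finset.card_image_le
      have h2 : (P.image (fun p => (2 + p) / 3)).card ≤ P.card := Finset.card_image_le
      rw [pow_succ]; omega
    · intro x hx
      rw [cantorSet_eq_union_halves] at hx
      rcases hx with ⟨y, hy, rfl⟩ | ⟨y, hy, rfl⟩
      · have h1 := hc hy
        simp only [mem_iUnion, exists_prop] at h1 ⊢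
        obtain ⟨p, hp, h2⟩ := h1
        refine ⟨p / 3, Finset.mem_union_left _ (Finset.mem_image_of_mem _ hp), ?_⟩
        rw [pow_succ]
        constructor
        · show p / 3 ≤ y / 3
          linarith [h2.1]
        · show y / 3 ≤ _
          linarith [h2.2]
      · have h1 := hc hy
        simp only [mem_iUnion, exists_prop] at h1 ⊢
        obtain ⟨p, hp, h2⟩ := h1
        refine ⟨(2 + p) / 3, Finset.mem_union_right _ (Finset.mem_image_of_mem _ hp), ?_⟩
        rw [pow_succ]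
        constructor
        · show (2 + p) / 3 ≤ (2 + y) / 3
          linarith [h2.1]
        · show (2 + y) / 3 ≤ _
          linarith [h2.2]

theorem cells_interval (p r : ℝ) (b : ℕ) (hr : (2 : ℝ) ^ b * r ≤ 1) :
    cells (Icc p (p + r)) b ⊆ (({⌊(2 : ℝ) ^ b * p⌋, ⌊(2 : ℝ) ^ b * p⌋ + 1} : Finset ℤ) : Set ℤ) := by
  rintro _ ⟨x, hx, rfl⟩
  have hb : (0 : ℝ) < 2 ^ b := by positivity
  have h1 : (2 : ℝ) ^ b * p ≤ 2 ^ b * x := mul_le_mul_of_nonneg_left hx.1 hb.le
  have h2 : (2 : ℝ) ^ b * x ≤ 2 ^ b * p + 1 := by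
    have := mul_le_mul_of_nonneg_left hx.2 hb.le
    linarith
  have h3 := Int.floor_le_floor h1
  have h4 : ⌊(2 : ℝ) ^ b * x⌋ ≤ ⌊(2 : ℝ) ^ b * p⌋ + 1 := by
    rw [← Int.floor_add_one]
    exact Int.floor_le_floor h2
  simp only [Finset.coe_insert, Finset.coe_singleton, mem_insert_iff, mem_singleton_iff]
  omega

theorem cells_mono {E E' : Set ℝ} (h : E ⊆ E') (b : ℕ) : cells E b ⊆ cells E' b := by
  rintro _ ⟨x, hx, rfl⟩
  exact ⟨x, h hx, rfl⟩

theorem Good.mono {E E' : Set ℝ} (h : E ⊆ E') {δ : ℝ} {b : ℕ} (hg : Good E' δ b) : Good E δ b := by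
  refine ⟨hg.1.subset (cells_mono h b), ?_⟩
  have := Set.ncard_le_ncard (cells_mono h b) hg.1
  exact le_trans (by exact_mod_cast this) hg.2

theorem cantor_good : ∃ᶠ b : ℕ in atTop, Good cantorSet (1 / 6) b := by
  classical
  rw [frequently_atTop]
  intro a
  refine ⟨3 * (a + 2), by omega, ?_⟩
  set m := a + 2 with hm
  obtain ⟨P, hP, hc⟩ := cantor_cover (2 * m)
  have hr : (2 : ℝ) ^ (3 * m) * (1 / 3 : ℝ) ^ (2 * m) ≤ 1 := by
    rw [pow_mul, pow_mul, ← mul_pow]
    apply pow_le_one₀ (by positivity)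
    norm_num
  let Q : Finset ℤ := P.biUnion (fun p =>
    {⌊(2 : ℝ) ^ (3 * m) * p⌋, ⌊(2 : ℝ) ^ (3 * m) * p⌋ + 1})
  have hsub : cells cantorSet (3 * m) ⊆ (Q : Set ℤ) := by
    rintro _ ⟨x, hx, rfl⟩
    have h1 := hc hx
    simp only [mem_iUnion, exists_prop] at h1
    obtain ⟨p, hp, h2⟩ := h1
    have h3 := cells_interval p _ (3 * m) hr ⟨x, h2, rfl⟩
    simp only [Q, Finset.coe_biUnion, mem_iUnion, exists_prop]
    exact ⟨p, hp, h3⟩
  have hQ : Q.card ≤ 2 ^ (2 * m) * 2 := by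
    refine (Finset.card_biUnion_le).trans ?_
    refine (Finset.sum_le_card_nsmul _ _ 2 (fun p _ => Finset.card_le_two)).trans ?_
    rw [smul_eq_mul]
    exact Nat.mul_le_mul_right _ hP
  have hfin : (cells cantorSet (3 * m)).Finite := (Finset.finite_toSet Q).subset hsub
  refine ⟨hfin, ?_⟩
  have h1 : (cells cantorSet (3 * m)).ncard ≤ 2 ^ (2 * m) * 2 := by
    refine (Set.ncard_le_ncard hsub (Finset.finite_toSet Q)).trans ?_
    rw [Set.ncard_coe_finset]; exact hQ
  have h2 : ((cells cantorSet (3 * m)).ncard : ℝ) ≤ (2 : ℝ) ^ (2 * m) * 2 := by exact_mod_cast h1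
  refine h2.trans ?_
  have h3 : (2 : ℝ) ^ (2 * m) * 2 = (2 : ℝ) ^ (((2 * m + 1 : ℕ) : ℝ)) := by
    rw [Real.rpow_natCast, pow_succ]
  rw [h3]
  apply Real.rpow_le_rpow_of_exponent_le (by norm_num)
  have : (2 : ℝ) ≤ m := by rw [hm]; push_cast; linarith [(Nat.cast_nonneg a : (0 : ℝ) ≤ a)]
  push_cast
  nlinarith

end Pool.Agent.MP72b52d
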